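import Pool.Agent.H555R2.E12.TreeB

/-!
Certificates for case trees (machine generated).
-/

set_option maxRecDepth 100000
set_option maxHeartbeats 4000000

namespace H555.E12

open H15.TC

/-- words with trivial square -/
def ilBe : List (List ℕ) := [[0]]
/-- words with trivial cube -/
def tlBe : List (List ℕ) := [[2], [4]]
/-- base relators -/
def relsBe : List (List ℕ) := [[0, 0], [2, 2, 2], [4, 4, 4], [0, 2, 0, 2, 0, 2], [0, 4, 0, 4, 0, 4, 0, 4], [0, 2, 4, 0, 5, 3]]
/-- goals -/
def goalsBe : List (List ℕ) := [[4]]

theorem okBe_1 : OKB goalsBe [[0]] [[2], [4]] [[0, 0], [2, 2, 2], [4, 4, 4], [0, 2, 0, 2, 0, 2], [0, 4, 0, 4, 0, 4, 0, 4], [0, 2, 4, 0, 5, 3]] :=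
  .leaf _ _ _ [336896444629250072637401206950293114295594474860428348112481613988811757537537632157652617217695746613594482141849562889897616936649706434669665158072434042915191015052532063273783671976248067135050539563434729704825950853377153826817] [33939465596847880941113478670801201322264136387578115034753169820661234132496019811813931555077535293519824466517578575715594507623006134433803821393559953768720343799313103257804814797622709688966645284865] 0 [4] rfl (by decide +kernel)

theorem okBe : OKB goalsBe ilBe tlBe relsBe := okBe_1

end H555.E12
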