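import Pool.Agent.H555R2.E12.TreeB

/-!
Certificates for case trees (machine generated).
-/

set_option maxRecDepth 100000
set_option maxHeartbeats 4000000

namespace H555.E12

open H15.TC

/-- words with trivial square -/
def ilBf : List (List ℕ) := [[0]]
/-- words with trivial cube -/
def tlBf : List (List ℕ) := [[2], [4]]
/-- base relators -/
def relsBf : List (List ℕ) := [[0, 0], [2, 2, 2], [4, 4, 4], [0, 2, 0, 2, 0, 2], [0, 4, 0, 4, 0, 4], [0, 2, 4, 0, 5, 3]]
/-- goals -/
def goalsBf : List (List ℕ) := [[0, 3, 4, 3, 4, 3, 4, 0, 5, 2, 5, 2, 5, 2]]

theorem okBf_1 : OKB goalsBf [[0]] [[2], [4]] [[0, 0], [2, 2, 2], [4, 4, 4], [0, 2, 0, 2, 0, 2], [0, 4, 0, 4, 0, 4], [0, 2, 4, 0, 5, 3]] :=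
  .leaf _ _ _ [1381892749765571406684590589236440538410015682222346888131201517763801921930618253212532109061218571044478116782390818640051989858291249498118524054305337593805105659651364457509535127991467958057406439043656966980701500202009065069458082432760379458283577348350381843064579613839124017858014580201703978757031024312869851782071901572315480065, 162004541411621037077341032277843666543080088254021923] [99919993220176249687520384594378394559743258500156254975372849913140578921248757228140017985949795860255501498800787269754685069090188022276877175571799811722357001066642983318824054298449993797563752993199628928701629161165353260007356184503318628318921822208687125076180467713] 0 [0, 3, 4, 3, 4, 3, 4, 0, 5, 2, 5, 2, 5, 2] rfl (by decide +kernel)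

theorem okBf : OKB goalsBf ilBf tlBf relsBf := okBf_1

end H555.E12
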