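import Pool.Agent.H555R2.E12.TreeB

/-!
Certificate (machine generated).
-/

set_option maxRecDepth 100000

namespace H555.E12

open H15.TC

/-- relators -/
def relsBg : List (List ℕ) := [[0], [2, 2, 2], [4, 4, 4], [2, 4, 2, 4, 2, 4, 2, 4], [3, 4, 3, 4, 3, 4, 3, 4]]

theorem chkBg : check relsBg [714646393036738757153742736194752577595921052501840236810371040356894102177862482196701275566704238918996593781531492027116025997622181128705122932052398742382028492681690341694264809082447867772383606853329888341282871852472583822384858386421732062371092627487223473461418825650008582860159435390611112486433407123544181886425242053136875523, 1914231408763341691211462444120209458177298527819569847534543849276760672141763169035647637563938002543656658074624851766325955552991570842184762831822518337268142915511426457296800037647790917999409347822505775559552932819935898841330680837373026891364732236748531360557404743141832524164508387250379993719077463886140764795307198845240213708, 2998166980992434664086442425597333510180322402854457232847895631018354669319994587836245664391490402194192539882456108046427937119447895594965603977668464865311619978859744799664546157147608603627868393023313743829160757929812447409817295459724058676688578956759497664928238509087752562218233263426818277902] [19379314170723471748716358473973225132237658104204991598602858186005874676727469298029802471219444347106979133364677329535370199727024966182588457643289174223818466543625918387399137089755176613348020854080704080544574770714453407383477070356937694812897857813801182263572648528738596622464141774733379184522965452134608546861373416790357442626,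 1906399265108691133135723000703041331311652334532282047928825566364672671905675148521681789896607883817138779929742048132457199153863291223629580214901263097162104735206149883592186138748394855071417419056888361454629507476675931803050899359444429328601963814001054267844040618249924995290466074874382570700363845534550260550142391227589] [2, 4, 3, 5, 2, 4, 3, 5, 2, 4, 3, 5, 2, 4, 3, 5, 2, 4, 3, 5, 2, 4, 3, 5, 2, 4, 3, 5] = true := by decide +kernel

end H555.E12
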