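import Pool.Agent.H555R2.E12.CertKa
import Pool.Agent.H555R2.E12.CertKb
import Pool.Agent.H555R2.E12.CertKc

/-!
The presentation facts, from the certificates.
-/

universe u

namespace H555.E12

open H15.TC

variable {G : Type u} [Group G]

/-- hypothesis (A) -/
def HA (G : Type u) [Group G] : Prop :=
  ∀ a b : G, a ^ 3 = 1 → b ^ 3 = 1 → (a * b) ^ 3 = 1 ∨ (a⁻¹ * b) ^ 3 = 1

/-- three generators -/
def g3 (e x w : G) : ℕ → G
  | 0 => e
  | 1 => x
  | _ => w

theorem g3_cube {e x w : G} (hx : x ^ 3 = 1) (hw : w ^ 3 = 1) :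
    ∀ i, g3 e x w (i + 1) ^ 3 = 1
  | 0 => hx
  | _ + 1 => hw

theorem l0 (e x w : G) : lv (g3 e x w) 0 = e := by simp [lv, g3]
theorem l2 (e x w : G) : lv (g3 e x w) 2 = x := by simp [lv, g3]
theorem l3 (e x w : G) : lv (g3 e x w) 3 = x⁻¹ := by simp [lv, g3]
theorem l4 (e x w : G) : lv (g3 e x w) 4 = w := by simp [lv, g3]
theorem l5 (e x w : G) : lv (g3 e x w) 5 = w⁻¹ := by simp [lv, g3]

theorem claimKa' (hA : HA G) {e x w : G} (he : e ^ 2 = 1) (hx : x ^ 3 = 1) (hw : w ^ 3 = 1)
    (hex : (e * x) ^ 3 = 1) (hew : (e * w) ^ 2 = 1) (hxw : (x * w) ^ 3 = 1) : w = 1 := by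
  have htw : ∀ v ∈ twKa, ev (g3 e x w) v ^ 3 = 1 := by
    intro v hv
    simp only [twKa, List.mem_cons, List.not_mem_nil, or_false] at hv
    rcases hv with rfl | rfl | rfl
    · simp only [ev_cons, ev_nil, mul_one, l0, l2, l3, l4, l5]; exact hx
    · simp only [ev_cons, ev_nil, mul_one, l0, l2, l3, l4, l5]; exact hw
    · simp only [ev_cons, ev_nil, mul_one, l0, l2, l3, l4, l5]; exact hex
  have hrl : ∀ r ∈ relsKa, ev (g3 e x w) r = 1 := by
    intro r hr
    simp only [relsKa, List.mem_cons, List.not_mem_nil, or_false] at hr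
    simp only [pow_succ, pow_zero, one_mul, mul_assoc] at he hx hw hex hew hxw
    rcases hr with rfl | rfl | rfl | rfl | rfl | rfl
    · simp only [ev_cons, ev_nil, mul_one, l0, l2, l3, l4, l5]; exact he
    · simp only [ev_cons, ev_nil, mul_one, l0, l2, l3, l4, l5]; exact hx
    · simp only [ev_cons, ev_nil, mul_one, l0, l2, l3, l4, l5]; exact hw
    · simp only [ev_cons, ev_nil, mul_one, l0, l2, l3, l4, l5]; exact hex
    · simp only [ev_cons, ev_nil, mul_one, l0, l2, l3, l4, l5]; exact hew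
    · simp only [ev_cons, ev_nil, mul_one, l0, l2, l3, l4, l5]; exact hxw
  obtain ⟨g, hg, h⟩ := okA_sound (gen := g3 e x w) he (g3_cube hx hw) hA okKa htw hrl
  simp only [goalsKa, List.mem_cons, List.not_mem_nil, or_false] at hg
  subst hg
  revert h; simp only [ev_cons, ev_nil, mul_one, l0, l2, l3, l4, l5]; exact id

theorem claimKb (hA : HA G) {e x w : G} (he : e ^ 2 = 1) (hx : x ^ 3 = 1) (hw : w ^ 3 = 1)
    (hex : (e * x) ^ 3 = 1) (hew : (e * w) ^ 6 = 1) (hxw : (x * w) ^ 3 = 1)
    (hc : (e * w⁻¹ * e * w) ^ 2 = 1) :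
    (e * w) ^ 3 = 1 ∨ e * w⁻¹ * e * w = 1 ∨ x = 1 ∨ w = 1 ∨ e = 1 := by
  have hew2 : ((e * w) ^ 2) ^ 3 = 1 := by rw [← pow_mul]; exact hew
  have htw : ∀ v ∈ twKb, ev (g3 e x w) v ^ 3 = 1 := by
    intro v hv
    simp only [twKb, List.mem_cons, List.not_mem_nil, or_false] at hv
    rcases hv with rfl | rfl | rfl | rfl | rfl
    · simp only [ev_cons, ev_nil, mul_one, l0, l2, l3, l4, l5]; exact hx
    · simp only [ev_cons, ev_nil, mul_one, l0, l2, l3, l4, l5]; exact hw
    · simp only [ev_cons, ev_nil, mul_one, l0, l2, l3, l4, l5]; exact hex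
    · simp only [ev_cons, ev_nil, mul_one, l0, l2, l3, l4, l5]; exact hxw
    · simp only [ev_cons, ev_nil, mul_one, l0, l2, l3, l4, l5]
      have : e * (w * (e * w)) = (e * w) ^ 2 := by rw [pow_two]; simp only [mul_assoc]
      rw [this]; exact hew2
  have hrl : ∀ r ∈ relsKb, ev (g3 e x w) r = 1 := by
    intro r hr
    simp only [relsKb, List.mem_cons, List.not_mem_nil, or_false] at hr
    simp only [pow_succ, pow_zero, one_mul, mul_assoc] at he hx hw hex hew hxw hc
    rcases hr with rfl | rfl | rfl | rfl | rfl | rfl | rfl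
    · simp only [ev_cons, ev_nil, mul_one, l0, l2, l3, l4, l5]; exact he
    · simp only [ev_cons, ev_nil, mul_one, l0, l2, l3, l4, l5]; exact hx
    · simp only [ev_cons, ev_nil, mul_one, l0, l2, l3, l4, l5]; exact hw
    · simp only [ev_cons, ev_nil, mul_one, l0, l2, l3, l4, l5]; exact hex
    · simp only [ev_cons, ev_nil, mul_one, l0, l2, l3, l4, l5]; exact hew
    · simp only [ev_cons, ev_nil, mul_one, l0, l2, l3, l4, l5]; exact hxw
    · simp only [ev_cons, ev_nil, mul_one, l0, l2, l3, l4, l5]; exact hc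
  obtain ⟨g, hg, h⟩ := okA_sound (gen := g3 e x w) he (g3_cube hx hw) hA okKb htw hrl
  simp only [goalsKb, List.mem_cons, List.not_mem_nil, or_false] at hg
  rcases hg with rfl | rfl | rfl | rfl | rfl
  · left
    revert h; simp only [ev_cons, ev_nil, mul_one, l0, l2, l3, l4, l5]; intro h
    simp only [pow_succ, pow_zero, one_mul, mul_assoc]; exact h
  · right; left
    revert h; simp only [ev_cons, ev_nil, mul_one, l0, l2, l3, l4, l5]; intro h
    simp only [mul_assoc]; exact h
  · right; right; left; revert h; simp only [ev_cons, ev_nil, mul_one, l0, l2, l3, l4, l5]; exact id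
  · right; right; right; left; revert h; simp only [ev_cons, ev_nil, mul_one, l0, l2, l3, l4, l5]; exact id
  · right; right; right; right; revert h; simp only [ev_cons, ev_nil, mul_one, l0, l2, l3, l4, l5]; exact id

theorem claimKc (hA : HA G) {e x w : G} (he : e ^ 2 = 1) (hx : x ^ 3 = 1) (hw : w ^ 3 = 1)
    (hex : (e * x) ^ 3 = 1) (hew : (e * w) ^ 6 = 1) (hxw : (x * w) ^ 3 = 1) :
    (e * w) ^ 3 = 1 ∨ e * w⁻¹ * e * w = 1 ∨ (e * w⁻¹ * e * w) ^ 2 = 1 ∨ x = 1 ∨ w = 1 ∨
      e = 1 := by
  have hew2 : ((e * w) ^ 2) ^ 3 = 1 := by rw [← pow_mul]; exact hew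
  have htw : ∀ v ∈ twKc, ev (g3 e x w) v ^ 3 = 1 := by
    intro v hv
    simp only [twKc, List.mem_cons, List.not_mem_nil, or_false] at hv
    rcases hv with rfl | rfl | rfl | rfl | rfl
    · simp only [ev_cons, ev_nil, mul_one, l0, l2, l3, l4, l5]; exact hx
    · simp only [ev_cons, ev_nil, mul_one, l0, l2, l3, l4, l5]; exact hw
    · simp only [ev_cons, ev_nil, mul_one, l0, l2, l3, l4, l5]; exact hex
    · simp only [ev_cons, ev_nil, mul_one, l0, l2, l3, l4, l5]; exact hxw
    · simp only [ev_cons, ev_nil, mul_one, l0, l2, l3, l4, l5]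
      have : e * (w * (e * w)) = (e * w) ^ 2 := by rw [pow_two]; simp only [mul_assoc]
      rw [this]; exact hew2
  have hrl : ∀ r ∈ relsKc, ev (g3 e x w) r = 1 := by
    intro r hr
    simp only [relsKc, List.mem_cons, List.not_mem_nil, or_false] at hr
    simp only [pow_succ, pow_zero, one_mul, mul_assoc] at he hx hw hex hew hxw
    rcases hr with rfl | rfl | rfl | rfl | rfl | rfl
    · simp only [ev_cons, ev_nil, mul_one, l0, l2, l3, l4, l5]; exact he
    · simp only [ev_cons, ev_nil, mul_one, l0, l2, l3, l4, l5]; exact hx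
    · simp only [ev_cons, ev_nil, mul_one, l0, l2, l3, l4, l5]; exact hw
    · simp only [ev_cons, ev_nil, mul_one, l0, l2, l3, l4, l5]; exact hex
    · simp only [ev_cons, ev_nil, mul_one, l0, l2, l3, l4, l5]; exact hew
    · simp only [ev_cons, ev_nil, mul_one, l0, l2, l3, l4, l5]; exact hxw
  obtain ⟨g, hg, h⟩ := okA_sound (gen := g3 e x w) he (g3_cube hx hw) hA okKc htw hrl
  simp only [goalsKc, List.mem_cons, List.not_mem_nil, or_false] at hg
  rcases hg with rfl | rfl | rfl | rfl | rfl | rfl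
  · left
    revert h; simp only [ev_cons, ev_nil, mul_one, l0, l2, l3, l4, l5]; intro h
    simp only [pow_succ, pow_zero, one_mul, mul_assoc]; exact h
  · right; left
    revert h; simp only [ev_cons, ev_nil, mul_one, l0, l2, l3, l4, l5]; intro h
    simp only [mul_assoc]; exact h
  · right; right; left
    revert h; simp only [ev_cons, ev_nil, mul_one, l0, l2, l3, l4, l5]; intro h
    simp only [pow_succ, pow_zero, one_mul, mul_assoc]; exact h
  · right; right; right; left; revert h; simp only [ev_cons, ev_nil, mul_one, l0, l2, l3, l4, l5]; exact id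
  · right; right; right; right; left; revert h; simp only [ev_cons, ev_nil, mul_one, l0, l2, l3, l4, l5]; exact id
  · right; right; right; right; right; revert h; simp only [ev_cons, ev_nil, mul_one, l0, l2, l3, l4, l5]; exact id

/-- replace `w` by its inverse if necessary -/
theorem wlogxw (hA : HA G) {x w : G} (hx : x ^ 3 = 1) (hw : w ^ 3 = 1) :
    (x * w) ^ 3 = 1 ∨ (x * w⁻¹) ^ 3 = 1 := by
  rcases hA x w hx hw with h | h
  · exact Or.inl h
  · right
    have h1 : ((x⁻¹ * w) ^ 3)⁻¹ = 1 := by rw [h, inv_one]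
    rw [← inv_pow, mul_inv_rev, inv_inv] at h1
    exact cube_comm h1

theorem claimKa (hA : HA G) {e x w : G} (he : e ^ 2 = 1) (hx : x ^ 3 = 1) (hw : w ^ 3 = 1)
    (hex : (e * x) ^ 3 = 1) (hew : (e * w) ^ 2 = 1) : w = 1 := by
  rcases wlogxw hA hx hw with h | h
  · exact claimKa' hA he hx hw hex hew h
  · have h1 : w⁻¹ = 1 := by
      refine claimKa' hA he hx (by rw [inv_pow, hw, inv_one]) hex ?_ h
      -- (e * w⁻¹)^2 = 1
      have he' : e * e = 1 := by rw [← pow_two]; exact he
      have h2 : e * w * e * w = 1 := by rw [pow_two] at hew; simpa only [mul_assoc] using hew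
      have h3 : e * w * e = w⁻¹ := by rw [mul_eq_one_iff_eq_inv] at h2; exact h2
      have h4 : e * w⁻¹ * e = w := by
        rw [← h3]
        calc e * (e * w * e) * e = (e * e) * w * (e * e) := by simp only [mul_assoc]
          _ = w := by rw [he', one_mul, mul_one]
      rw [pow_two]
      calc e * w⁻¹ * (e * w⁻¹) = (e * w⁻¹ * e) * w⁻¹ := by simp only [mul_assoc]
        _ = 1 := by rw [h4, mul_inv_cancel]
    rwa [inv_eq_one] at h1

/-- **Key lemma** -/
theorem key (hA : HA G) {e x w : G} (he : e ^ 2 = 1) (he1 : e ≠ 1)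
    (hx : x ^ 3 = 1) (hex : (e * x) ^ 3 = 1) (hw : w ^ 3 = 1) :
    (e * w) ^ 3 = 1 ∨ e * w = w * e := by
  have he' : e * e = 1 := by rw [← pow_two]; exact he
  have hei : e⁻¹ = e := by rw [inv_eq_iff_mul_eq_one]; exact he'
  have hx1 : x ≠ 1 := by
    rintro rfl
    rw [mul_one, pow_succ, he, one_mul] at hex
    exact he1 hex
  have comm_of : e * w⁻¹ * e * w = 1 → e * w = w * e := by
    intro h
    have h1 : e * w⁻¹ * e = w⁻¹ := by rw [mul_eq_one_iff_eq_inv] at h; exact h
    have h2 : e * w * e = w := by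
      have h3 : (e * w⁻¹ * e)⁻¹ = w := by rw [h1, inv_inv]
      rw [mul_inv_rev, mul_inv_rev, inv_inv, hei] at h3
      simpa only [mul_assoc] using h3
    calc e * w = (e * w * e) * e := by rw [mul_assoc, he', mul_one]
      _ = w * e := by rw [h2]
  -- elements of order 3 inverted by e are trivial
  have hinv : ∀ c : G, c ^ 3 = 1 → e * c * e = c⁻¹ → c = 1 := by
    intro c hc h
    refine claimKa hA he hx hc hex ?_
    rw [pow_two]
    calc e * c * (e * c) = (e * c * e) * c := by simp only [mul_assoc]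
      _ = 1 := by rw [h, inv_mul_cancel]
  set c := e * w⁻¹ * e * w with hc
  have hci : e * c * e = c⁻¹ := by
    rw [hc, mul_inv_rev, mul_inv_rev, mul_inv_rev, inv_inv, hei]
    calc e * (e * w⁻¹ * e * w) * e = (e * e) * (w⁻¹ * (e * (w * e))) := by
          simp only [mul_assoc]
      _ = w⁻¹ * (e * (w * e)) := by rw [he', one_mul]
  -- hypothesis (A) for `e w e` and `w`
  have hwe : (e * w * e) ^ 3 = 1 := by
    have h := cube_conj (G := G) e hw
    rwa [hei] at h
  rcases hA (e * w * e) w hwe hw with h | h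
  · -- (e w)^6 = 1
    have h6 : (e * w) ^ 6 = 1 := by
      have : (e * w) ^ 6 = ((e * w * e) * w) ^ 3 := by
        rw [show (6 : ℕ) = 2 * 3 by norm_num, pow_mul, pow_two]
        simp only [mul_assoc]
      rw [this]; exact h
    -- the case (x w)^3 = 1, for any w
    have main : ∀ v : G, v ^ 3 = 1 → (x * v) ^ 3 = 1 → (e * v) ^ 6 = 1 →
        (e * v) ^ 3 = 1 ∨ e * v⁻¹ * e * v = 1 := by
      intro v hv hxv hev
      rcases claimKc hA he hx hv hex hev hxv with h1 | h1 | h1 | h1 | h1 | h1
      · exact Or.inl h1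
      · exact Or.inr h1
      · rcases claimKb hA he hx hv hex hev hxv h1 with h2 | h2 | h2 | h2 | h2
        · exact Or.inl h2
        · exact Or.inr h2
        · exact absurd h2 hx1
        · right; rw [h2]; simp [he']
        · exact absurd h2 he1
      · exact absurd h1 hx1
      · right; rw [h1]; simp [he']
      · exact absurd h1 he1
    rcases wlogxw hA hx hw with hxw | hxw
    · rcases main w hw hxw h6 with h1 | h1
      · exact Or.inl h1
      · exact Or.inr (comm_of h1)
    · have hw' : w⁻¹ ^ 3 = 1 := by rw [inv_pow, hw, inv_one]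
      have h6' : (e * w⁻¹) ^ 6 = 1 := by
        have h7 : (e * w⁻¹)⁻¹ = w * e := by rw [mul_inv_rev, inv_inv, hei]
        have h8 : (w * e) ^ 6 = 1 := by
          have : w * e = e⁻¹ * (e * w) * (e⁻¹)⁻¹ := by
            rw [inv_inv]; simp only [mul_assoc, inv_mul_cancel_left]
          rw [this, conj_pow, h6]; simp
        rw [← inv_inj, ← inv_pow, h7, h8, inv_one]
      rcases main w⁻¹ hw' hxw h6' with h1 | h1
      · left
        have h7 : (e * w⁻¹)⁻¹ = w * e := by rw [mul_inv_rev, inv_inv, hei]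
        have h8 : (w * e) ^ 3 = 1 := by rw [← h7, inv_pow, h1, inv_one]
        exact cube_comm h8
      · right
        -- e w e w⁻¹ = 1
        rw [inv_inv] at h1
        have h2 : e * w * e = w := by
          rw [mul_eq_one_iff_eq_inv, inv_inv] at h1; exact h1
        calc e * w = (e * w * e) * e := by rw [mul_assoc, he', mul_one]
          _ = w * e := by rw [h2]
  · -- c^3 = 1
    right
    have h1 : (e * w * e)⁻¹ * w = c := by
      rw [mul_inv_rev, mul_inv_rev, hei, hc]; simp only [mul_assoc]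
    rw [h1] at h
    exact comm_of (hinv c h hci)

end H555.E12
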