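import Pool.Agent.H15R2.Burn

/-!
Locally finite subgroups and the locally finite radical (after Helper904.GS.Rad, any universe),
and finiteness of groups generated by finitely many involutions commuting with their conjugates.
-/

universe u

namespace H555.E12

/-- Locally finite subgroups. -/
def LFs {G : Type u} [Group G] (N : Subgroup G) : Prop :=
  ∀ s : Set G, s.Finite → s ⊆ (N : Set G) → Finite (Subgroup.closure s)

theorem finite_exp3 {G : Type u} [Group G] (hfg : Group.FG G) (h : ∀ g : G, g ^ 3 = 1) :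
    Finite G := by
  obtain ⟨S, hS⟩ := Group.fg_def.mp hfg
  have h1 := H15.Burn.fin3 h S
  rw [hS] at h1
  exact Set.finite_univ_iff.mp (by simpa using h1)

theorem finite_exp4 {G : Type u} [Group G] (hfg : Group.FG G) (h : ∀ g : G, g ^ 4 = 1) :
    Finite G := by
  obtain ⟨S, hS⟩ := Group.fg_def.mp hfg
  have h1 := H15.Burn.fin4 h S
  rw [hS] at h1
  exact Set.finite_univ_iff.mp (by simpa using h1)

theorem finite_map {G G' : Type u} [Group G] [Group G'] (f : G →* G') (H : Subgroup G)
    (h : Finite H) : Finite (H.map f) := by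
  have h1 : (H : Set G).Finite := h
  have h2 : ((H.map f : Subgroup G') : Set G').Finite := by
    rw [Subgroup.coe_map]; exact h1.image _
  exact h2

theorem finite_of_quot {H : Type u} [Group H] (A : Subgroup H) (h1 : Finite A)
    (h2 : Finite (H ⧸ A)) : Finite H :=
  Finite.of_equiv _ (Subgroup.groupEquivQuotientProdSubgroup (s := A)).symm

section

variable {G : Type u} [Group G]

theorem LFs.mono {M N : Subgroup G} (h : LFs N) (hMN : M ≤ N) : LFs M :=
  fun s hs hsM => h s hs (hsM.trans hMN)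

theorem LFs.map {G' : Type u} [Group G'] (f : G →* G') {N : Subgroup G} (h : LFs N) :
    LFs (N.map f) := by
  classical
  intro s hs hsN
  have h1 : ∀ x : G', ∃ y : G, x ∈ s → y ∈ N ∧ f y = x := by
    intro x
    by_cases hx : x ∈ s
    · obtain ⟨y, hy, rfl⟩ := hsN hx
      exact ⟨y, fun _ => ⟨hy, rfl⟩⟩
    · exact ⟨1, fun h => absurd h hx⟩
  choose l hl using h1
  have h2 : Finite (Subgroup.closure (l '' s)) := h _ (hs.image l) (by
    rintro _ ⟨x, hx, rfl⟩
    exact (hl x hx).1)
  have h3 : s = f '' (l '' s) := by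
    ext x
    constructor
    · intro hx; exact ⟨l x, ⟨x, hx, rfl⟩, (hl x hx).2⟩
    · rintro ⟨_, ⟨y, hy, rfl⟩, rfl⟩
      rw [(hl y hy).2]; exact hy
  rw [h3, ← MonoidHom.map_closure]
  exact finite_map _ _ h2

/-- Locally finite by locally finite is locally finite. -/
theorem LFs.ext (N H : Subgroup G) [N.Normal] (hN : LFs N)
    (hq : LFs (H.map (QuotientGroup.mk' N))) : LFs H := by
  classical
  intro s hs hsH
  set T := Subgroup.closure s with hT
  have h1 : Finite (T.map (QuotientGroup.mk' N)) := by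
    rw [hT, MonoidHom.map_closure]
    refine hq _ (hs.image _) ?_
    rintro _ ⟨x, hx, rfl⟩
    exact ⟨x, hsH hx, rfl⟩
  have hTfg : Group.FG T := (Group.fg_iff_subgroup_fg _).2 ((Subgroup.fg_iff _).2 ⟨s, hT.symm, hs⟩)
  have h2 : (N.subgroupOf T).FiniteIndex := by
    have h3 : N.subgroupOf T = ((QuotientGroup.mk' N).comp T.subtype).ker := by
      ext x
      rw [Subgroup.mem_subgroupOf, MonoidHom.mem_ker]
      exact (QuotientGroup.eq_one_iff (N := N) (x : G)).symm
    have h4 : Finite ((QuotientGroup.mk' N).comp T.subtype).range := by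
      rw [MonoidHom.range_comp, Subgroup.range_subtype]
      exact h1
    refine ⟨?_⟩
    rw [h3, Subgroup.index_ker]
    exact Nat.card_pos.ne'
  have h3 : Group.FG (N.subgroupOf T) := Subgroup.fg_of_index_ne_zero _
  obtain ⟨S0, hS0⟩ := (Group.fg_iff_subgroup_fg _).1 h3
  have h4 : Subgroup.closure ((S0.image T.subtype : Finset G) : Set G) = N ⊓ T := by
    rw [Finset.coe_image, ← MonoidHom.map_closure, hS0, Subgroup.subgroupOf_map_subtype]
  have h5 : Finite (N ⊓ T : Subgroup G) := by
    rw [← h4]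
    refine hN _ (Finset.finite_toSet _) ?_
    intro x hx
    have : x ∈ N ⊓ T := by rw [← h4]; exact Subgroup.subset_closure hx
    exact this.1
  refine finite_of_quot (N.subgroupOf T) ?_ inferInstance
  refine Finite.of_injective (fun x : N.subgroupOf T =>
    (⟨((x : T) : G), ⟨Subgroup.mem_subgroupOf.1 x.2, x.1.2⟩⟩ : (N ⊓ T : Subgroup G))) ?_
  intro x y hxy
  exact Subtype.ext (Subtype.ext (congrArg (fun z : (N ⊓ T : Subgroup G) => (z : G)) hxy))

theorem LFs.sup {M N : Subgroup G} [N.Normal] (hM : LFs M) (hN : LFs N) : LFs (M ⊔ N) := by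
  refine LFs.ext N (M ⊔ N) hN ?_
  have h1 : (M ⊔ N).map (QuotientGroup.mk' N) ≤ M.map (QuotientGroup.mk' N) := by
    rw [Subgroup.map_sup]
    refine sup_le le_rfl ?_
    rintro _ ⟨x, hx, rfl⟩
    have : QuotientGroup.mk' N x = 1 := (QuotientGroup.eq_one_iff x).2 hx
    rw [this]; exact Subgroup.one_mem _
  exact (hM.map _).mono h1

/-- The locally finite radical. -/
def rad (G : Type u) [Group G] : Subgroup G where
  carrier := {x | ∃ N : Subgroup G, N.Normal ∧ LFs N ∧ x ∈ N}
  one_mem' := ⟨⊥, inferInstance, fun s _ hs => by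
    have h1 : Subgroup.closure s ≤ ⊥ := (Subgroup.closure_le _).2 hs
    have h2 : Subgroup.closure s = ⊥ := le_bot_iff.1 h1
    rw [h2]; infer_instance, Subgroup.one_mem _⟩
  mul_mem' := by
    rintro a b ⟨M, hM, hM', ha⟩ ⟨N, hN, hN', hb⟩
    exact ⟨M ⊔ N, Subgroup.sup_normal M N, hM'.sup hN',
      Subgroup.mul_mem _ (Subgroup.mem_sup_left ha) (Subgroup.mem_sup_right hb)⟩
  inv_mem' := by
    rintro a ⟨M, hM, hM', ha⟩
    exact ⟨M, hM, hM', M.inv_mem ha⟩

theorem rad_le {N : Subgroup G} (h1 : N.Normal) (h2 : LFs N) : N ≤ rad G :=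
  fun _ hx => ⟨N, h1, h2, hx⟩

instance rad_normal : (rad G).Normal := by
  refine ⟨?_⟩
  rintro x ⟨M, hM, hM', hx⟩ g
  exact ⟨M, hM, hM', hM.conj_mem x hx g⟩

theorem rad_LFs : LFs (rad G) := by
  intro s hs hsR
  have key : ∃ N : Subgroup G, N.Normal ∧ LFs N ∧ s ⊆ (N : Set G) := by
    induction s, hs using Set.Finite.induction_on with
    | empty =>
      obtain ⟨N, h1, h2, -⟩ := (rad G).one_mem
      exact ⟨N, h1, h2, Set.empty_subset _⟩
    | insert _ _ ih =>
      obtain ⟨N, h1, h2, h3⟩ := ih ((Set.subset_insert _ _).trans hsR)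
      obtain ⟨M, h4, h5, h6⟩ := hsR (Set.mem_insert _ _)
      refine ⟨N ⊔ M, Subgroup.sup_normal N M, h2.sup h5, ?_⟩
      rintro x (rfl | hx)
      · exact Subgroup.mem_sup_right h6
      · exact Subgroup.mem_sup_left (h3 hx)
  obtain ⟨N, -, h2, h3⟩ := key
  exact h2 s hs h3

theorem rad_quot {N : Subgroup (G ⧸ rad G)} (h1 : N.Normal) (h2 : LFs N) : N = ⊥ := by
  have h3 : LFs (N.comap (QuotientGroup.mk' (rad G))) := by
    refine LFs.ext (rad G) _ rad_LFs ?_
    rw [Subgroup.map_comap_eq_self_of_surjective (QuotientGroup.mk'_surjective _)]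
    exact h2
  have h4 := rad_le (h1.comap _) h3
  rw [eq_bot_iff]
  intro x hx
  obtain ⟨x, rfl⟩ := QuotientGroup.mk'_surjective (rad G) x
  exact (QuotientGroup.eq_one_iff x).2 (h4 hx)

/-- the subgroup generated by pairwise commuting involutions has exponent 2 -/
theorem closure_sq {S : Set G} (h2 : ∀ c ∈ S, c ^ 2 = 1) (hc : ∀ c ∈ S, ∀ d ∈ S, c * d = d * c) :
    ∀ a ∈ Subgroup.closure S, a ^ 2 = 1 := by
  have h1 : ∀ a ∈ Subgroup.closure S, ∀ c ∈ S, a * c = c * a := by
    intro a ha c hcS
    induction ha using Subgroup.closure_induction with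
    | mem x hx => exact hc x hx c hcS
    | one => simp
    | mul x y _ _ hx hy => rw [mul_assoc, hy, ← mul_assoc, hx, mul_assoc]
    | inv x _ hx => rw [inv_mul_eq_iff_eq_mul, ← mul_assoc, hx, mul_assoc, mul_inv_cancel, mul_one]
  intro a ha
  have h3 : ∀ b ∈ Subgroup.closure S, b ^ 2 = 1 ∧ ∀ a ∈ Subgroup.closure S, a * b = b * a := by
    intro b hb
    induction hb using Subgroup.closure_induction with
    | mem x hx => exact ⟨h2 x hx, fun a ha => h1 a ha x hx⟩
    | one => simp
    | mul x y hx' hy' hx hy =>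
      refine ⟨?_, ?_⟩
      · have e : x * y = y * x := hy.2 x hx'
        calc (x * y) ^ 2 = x * (y * x) * y := by rw [pow_two]; simp only [mul_assoc]
          _ = x ^ 2 * y ^ 2 := by rw [← e, pow_two, pow_two]; simp only [mul_assoc]
          _ = 1 := by rw [hx.1, hy.1, mul_one]
      · intro a ha
        rw [← mul_assoc, hx.2 a ha, mul_assoc, hy.2 a ha, mul_assoc]
    | inv x hx' hx =>
      refine ⟨by rw [inv_pow, hx.1, inv_one], ?_⟩
      intro a ha
      rw [mul_inv_eq_iff_eq_mul, mul_assoc, hx.2 a ha, ← mul_assoc, inv_mul_cancel, one_mul]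
  exact (h3 a ha).1

end

/-- a group generated by `m` involutions each commuting with its conjugates is finite -/
theorem finite_invol (m : ℕ) : ∀ (G : Type u) [Group G] (c : Fin m → G),
    Subgroup.closure (Set.range c) = ⊤ → (∀ i, c i ^ 2 = 1) →
    (∀ i g, c i * (g * c i * g⁻¹) = (g * c i * g⁻¹) * c i) → Finite G := by
  induction m with
  | zero =>
    intro G _ c hc _ _
    rw [Set.range_eq_empty, Subgroup.closure_empty] at hc
    have : Subsingleton G := by
      refine ⟨fun a b => ?_⟩
      have h1 : ∀ x : G, x = 1 := fun x => by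
        have : x ∈ (⊤ : Subgroup G) := Subgroup.mem_top x
        rw [← hc] at this; exact Subgroup.mem_bot.1 this
      rw [h1 a, h1 b]
    infer_instance
  | succ m ih =>
    intro G _ c hc h2 hcc
    have hGfg : Group.FG G :=
      Group.fg_def.2 ((Subgroup.fg_iff _).2 ⟨Set.range c, hc, Set.finite_range c⟩)
    set A := Subgroup.normalClosure {c 0} with hA
    have hAsq : ∀ a ∈ A, a ^ 2 = 1 := by
      rw [hA]
      unfold Subgroup.normalClosure
      have hmem : ∀ x ∈ Group.conjugatesOfSet {c 0}, ∃ g, x = g * c 0 * g⁻¹ := by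
        intro x hx
        rw [Group.mem_conjugatesOfSet_iff] at hx
        obtain ⟨y, hy, hxy⟩ := hx
        rw [Set.mem_singleton_iff] at hy
        subst hy
        obtain ⟨g, hg⟩ := isConj_iff.1 hxy
        exact ⟨g, hg.symm⟩
      apply closure_sq
      · intro x hx
        obtain ⟨g, rfl⟩ := hmem x hx
        rw [conj_pow, h2]; simp
      · intro x hx y hy
        obtain ⟨g, rfl⟩ := hmem x hx
        obtain ⟨k, rfl⟩ := hmem y hy
        have h5 := hcc 0 (g⁻¹ * k)
        have h6 := congrArg (fun z => g * z * g⁻¹) h5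
        simp only [mul_inv_rev, inv_inv] at h6
        calc g * c 0 * g⁻¹ * (k * c 0 * k⁻¹)
            = g * (c 0 * (g⁻¹ * k * c 0 * (k⁻¹ * g))) * g⁻¹ := by
              simp only [mul_assoc, mul_inv_cancel, mul_one]
          _ = g * (g⁻¹ * k * c 0 * (k⁻¹ * g) * c 0) * g⁻¹ := h6
          _ = k * c 0 * k⁻¹ * (g * c 0 * g⁻¹) := by
              simp only [mul_assoc, mul_inv_cancel_left]
    have hq : Finite (G ⧸ A) := by
      refine ih (G ⧸ A) (fun i => QuotientGroup.mk' A (c i.succ)) ?_ ?_ ?_
      · rw [eq_top_iff]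
        have h7 : (⊤ : Subgroup (G ⧸ A)) = (⊤ : Subgroup G).map (QuotientGroup.mk' A) := by
          rw [← MonoidHom.range_eq_map, QuotientGroup.range_mk']
        rw [h7, ← hc, MonoidHom.map_closure, Subgroup.closure_le]
        rintro _ ⟨_, ⟨i, rfl⟩, rfl⟩
        refine Fin.cases ?_ ?_ i
        · have : QuotientGroup.mk' A (c 0) = 1 :=
            (QuotientGroup.eq_one_iff _).2 (Subgroup.subset_normalClosure (Set.mem_singleton _))
          rw [this]; exact one_mem _
        · intro j
          exact Subgroup.subset_closure ⟨j, rfl⟩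
      · intro i
        rw [← map_pow, h2, map_one]
      · intro i g
        obtain ⟨g, rfl⟩ := QuotientGroup.mk'_surjective A g
        rw [← map_inv, ← map_mul, ← map_mul, ← map_mul, ← map_mul, hcc]
    have hAi : A.FiniteIndex := ⟨by
      rw [Subgroup.index]; exact Nat.card_pos.ne'⟩
    have hAfg : Group.FG A := Subgroup.fg_of_index_ne_zero _
    have hAfin : Finite A := by
      refine finite_exp4 hAfg ?_
      intro a
      have h8 := hAsq a a.2
      ext
      rw [Subgroup.coe_pow, show (4 : ℕ) = 2 * 2 by norm_num, pow_mul, h8, one_pow,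
        Subgroup.coe_one]
    exact finite_of_quot A hAfin hq

end H555.E12
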