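import Pool.Agent.H555R2.E12.Claims
import Pool.Agent.H555R2.E12.LF

/-!
The structure argument.
-/

universe u

namespace H555.E12

variable {G : Type u} [Group G]

theorem sq_inv {c : G} (h : c ^ 2 = 1) : c⁻¹ = c := by
  rw [inv_eq_iff_mul_eq_one, ← pow_two]; exact h

theorem three_conj {c y : G} (hy : y ^ 3 = 1) (h : (c * y) ^ 3 = 1) :
    c * (y * c * y⁻¹) * (y⁻¹ * c * y) = 1 := by
  have hy3 : y * y * y = 1 := by simpa only [pow_succ, pow_zero, one_mul] using hy
  have hy2 : y⁻¹ * y⁻¹ = y := by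
    rw [← mul_inv_rev, inv_eq_iff_mul_eq_one]; exact hy3
  have h1 : c * y * (c * y) * (c * y) = 1 := by
    simpa only [pow_succ, pow_zero, one_mul] using h
  calc c * (y * c * y⁻¹) * (y⁻¹ * c * y) = c * y * c * (y⁻¹ * y⁻¹) * c * y := by
        simp only [mul_assoc]
    _ = c * y * (c * y) * (c * y) := by rw [hy2]; simp only [mul_assoc]
    _ = 1 := h1

theorem three_comm {c y : G} (hc : c ^ 2 = 1) (hy : y ^ 3 = 1) (h : (c * y) ^ 3 = 1) :
    c * (y * c * y⁻¹) = (y * c * y⁻¹) * c ∧ y⁻¹ * c * y = c * (y * c * y⁻¹) := by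
  have h3 := three_conj hy h
  have k1 : (y * c * y⁻¹)⁻¹ = y * c * y⁻¹ := sq_inv (by rw [conj_pow, hc]; simp)
  have k2 : (y⁻¹ * c * y)⁻¹ = y⁻¹ * c * y := sq_inv (by
    have := conj_pow (a := y⁻¹) (b := c) (i := 2)
    rw [inv_inv] at this
    rw [this, hc]; simp)
  set c1 := y * c * y⁻¹ with hc1
  set c2 := y⁻¹ * c * y with hc2
  have e1 : c2 = c1 * c := by
    rw [mul_eq_one_iff_inv_eq, mul_inv_rev, k1, sq_inv hc] at h3
    exact h3.symm
  have e2 : c2 = c * c1 := by
    rw [← k2, e1, mul_inv_rev, k1, sq_inv hc]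
  exact ⟨by rw [← e2, e1], e2⟩

/-- good involutions -/
def Good (c : G) : Prop :=
  c ^ 2 = 1 ∧ c ≠ 1 ∧ ∀ w : G, w ^ 3 = 1 → (c * w) ^ 3 = 1 ∨ c * w = w * c

theorem Good.conj {c : G} (h : Good c) (g : G) : Good (g * c * g⁻¹) := by
  obtain ⟨h1, h2, h3⟩ := h
  refine ⟨by rw [conj_pow, h1]; simp, fun h => h2 (by simpa using h), ?_⟩
  intro w hw
  have hw' : (g⁻¹ * w * g) ^ 3 = 1 := cube_conj g hw
  rcases h3 _ hw' with h | h
  · left
    have e : g * c * g⁻¹ * w = g * (c * (g⁻¹ * w * g)) * g⁻¹ := by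
      simp only [mul_assoc, mul_inv_cancel, mul_one]
    rw [e, conj_pow, h]; simp
  · right
    calc g * c * g⁻¹ * w = g * (c * (g⁻¹ * w * g)) * g⁻¹ := by
          simp only [mul_assoc, mul_inv_cancel, mul_one]
      _ = g * (g⁻¹ * w * g * c) * g⁻¹ := by rw [h]
      _ = w * (g * c * g⁻¹) := by simp only [mul_assoc, mul_inv_cancel_left]

theorem Good.conj' {c : G} (h : Good c) (g : G) : Good (g⁻¹ * c * g) := by
  have := h.conj g⁻¹
  rwa [inv_inv] at this

/-- a commuting involution and element of order 3 have product of order 6 -/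
theorem cube_comm_invol {c u : G} (hc : c ^ 2 = 1) (hc1 : c ≠ 1) (hu : u ^ 3 = 1)
    (h : c * u = u * c) : (c * u) ^ 3 ≠ 1 := by
  intro h3
  have h4 : (c * u) ^ 3 = c ^ 3 * u ^ 3 := (show Commute c u from h).mul_pow 3
  rw [h4, hu, mul_one, pow_succ, hc, one_mul] at h3
  exact hc1 h3

theorem stepT0 {c w y : G} (hc : Good c) (hw : w ^ 3 = 1) (hcw : c * w = w * c)
    (hy : y ^ 3 = 1) : (y * c * y⁻¹) * w = w * (y * c * y⁻¹) := by
  rcases hc.2.2 y hy with h | h
  · obtain ⟨h1, h2⟩ := three_comm hc.1 hy h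
    rcases (hc.conj y).2.2 w hw with k1 | k1
    swap
    · exact k1
    rcases (hc.conj' y).2.2 w hw with k2 | k2
    · exfalso
      rw [h2, mul_assoc] at k2
      refine cube_comm_invol hc.1 hc.2.1 k1 ?_ k2
      calc c * (y * c * y⁻¹ * w) = (c * (y * c * y⁻¹)) * w := by simp only [mul_assoc]
        _ = (y * c * y⁻¹) * (c * w) := by rw [h1, mul_assoc]
        _ = y * c * y⁻¹ * w * c := by rw [hcw, mul_assoc (y * c * y⁻¹)]
    · have e : y * c * y⁻¹ = c * (y⁻¹ * c * y) := by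
        rw [h2, ← mul_assoc, ← pow_two, hc.1, one_mul]
      rw [e, mul_assoc, k2, ← mul_assoc, hcw, mul_assoc]
  · have e : y * c * y⁻¹ = c := by rw [← h, mul_inv_cancel_right]
    rw [e]; exact hcw

theorem all_comm (hT : Subgroup.closure {x : G | x ^ 3 = 1} = ⊤) {c w : G} (hc : Good c)
    (hw : w ^ 3 = 1) (hcw : c * w = w * c) (g : G) :
    (g * c * g⁻¹) * w = w * (g * c * g⁻¹) := by
  have hg : g ∈ Subgroup.closure {x : G | x ^ 3 = 1} := by rw [hT]; exact Subgroup.mem_top g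
  induction hg using Subgroup.closure_induction_left with
  | one => simpa using hcw
  | mul_left x hx y _ ih =>
    have h := stepT0 (hc.conj y) hw ih hx
    have e : x * y * c * (x * y)⁻¹ = x * (y * c * y⁻¹) * x⁻¹ := by
      rw [mul_inv_rev]; simp only [mul_assoc]
    rw [e]; exact h
  | inv_mul_cancel x hx y _ ih =>
    have hx' : x⁻¹ ^ 3 = 1 := by rw [inv_pow, hx, inv_one]
    have h := stepT0 (hc.conj y) hw ih hx'
    have e : x⁻¹ * y * c * (x⁻¹ * y)⁻¹ = x⁻¹ * (y * c * y⁻¹) * x⁻¹⁻¹ := by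
      rw [mul_inv_rev]; simp only [mul_assoc]
    rw [e]; exact h

section

variable (hT : Subgroup.closure {x : G | x ^ 3 = 1} = ⊤) {e x : G} (he : Good e)
  (hx : x ^ 3 = 1) (hex : (e * x) ^ 3 = 1)

/-- elements of order 3 not commuting with `e` -/
def W (e w : G) : Prop := w ^ 3 = 1 ∧ e * w ≠ w * e

include hT he in
theorem W_cube {w : G} (hw : W e w) (g : G) : ((g * e * g⁻¹) * w) ^ 3 = 1 := by
  rcases (he.conj g).2.2 w hw.1 with h | h
  · exact h
  · exfalso
    have h1 := all_comm hT (he.conj g) hw.1 h g⁻¹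
    have e1 : g⁻¹ * (g * e * g⁻¹) * g⁻¹⁻¹ = e := by
      rw [inv_inv]; simp only [mul_assoc, inv_mul_cancel_left, inv_mul_cancel, mul_one]
    rw [e1] at h1
    exact hw.2 h1

theorem mem_conj {e x : G} (hx : x ∈ Group.conjugatesOfSet {e}) : ∃ g, x = g * e * g⁻¹ := by
  rw [Group.mem_conjugatesOfSet_iff] at hx
  obtain ⟨y, hy, hxy⟩ := hx
  rw [Set.mem_singleton_iff] at hy
  subst hy
  obtain ⟨g, hg⟩ := isConj_iff.1 hxy
  exact ⟨g, hg.symm⟩

include hT he in
theorem W_step {w : G} (hw : W e w) (g : G) : W e ((g * e * g⁻¹) * w) := by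
  have h3 := W_cube hT he hw g
  refine ⟨h3, ?_⟩
  intro hcomm
  have h1 := all_comm hT he h3 hcomm g
  set c := g * e * g⁻¹ with hc
  have hcg := he.conj g
  rw [← hc] at hcg
  have h2 : c * (c * w) = w := by rw [← mul_assoc, ← pow_two, hcg.1, one_mul]
  have h4 := cube_comm_invol hcg.1 hcg.2.1 h3 h1
  rw [h2] at h4
  exact h4 hw.1

include hT he in
theorem W_N {n w : G} (hn : n ∈ Subgroup.normalClosure {e}) (hw : W e w) : W e (n * w) := by
  unfold Subgroup.normalClosure at hn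
  induction hn using Subgroup.closure_induction_left with
  | one => simpa using hw
  | mul_left x hx y _ ih =>
    obtain ⟨g, rfl⟩ := mem_conj hx
    rw [mul_assoc (g * e * g⁻¹)]
    exact W_step hT he ih g
  | inv_mul_cancel x hx y _ ih =>
    obtain ⟨g, rfl⟩ := mem_conj hx
    rw [sq_inv (he.conj g).1, mul_assoc (g * e * g⁻¹)]
    exact W_step hT he ih g

theorem W_inv {w : G} (hw : W e w) : W e w⁻¹ := by
  refine ⟨by rw [inv_pow, hw.1, inv_one], ?_⟩
  intro h
  apply hw.2
  have h1 := congrArg (fun z => w * z * w) h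
  simp only [mul_assoc, inv_mul_cancel, mul_one, mul_inv_cancel_left] at h1
  exact h1.symm

include hT he in
theorem comm_N {n w : G} (hn : n ∈ Subgroup.normalClosure {e}) (hw : W e w) (g : G) :
    (g * e * g⁻¹) * (n * (w * (g * e * g⁻¹) * w⁻¹) * n⁻¹) =
      (n * (w * (g * e * g⁻¹) * w⁻¹) * n⁻¹) * (g * e * g⁻¹) := by
  have h1 := W_N hT he hn hw
  have h2 := W_cube hT he h1 g
  have h3 := (three_comm (he.conj g).1 h1.1 h2).1
  have e1 : n * w * (g * e * g⁻¹) * (n * w)⁻¹ = n * (w * (g * e * g⁻¹) * w⁻¹) * n⁻¹ := by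
    rw [mul_inv_rev]; simp only [mul_assoc]
  rw [e1] at h3
  exact h3

include hT he hx hex in
theorem comm_self {n : G} (hn : n ∈ Subgroup.normalClosure {e}) (g : G) :
    (g * e * g⁻¹) * (n * (g * e * g⁻¹) * n⁻¹) = (n * (g * e * g⁻¹) * n⁻¹) * (g * e * g⁻¹) := by
  have hW : W e x := ⟨hx, fun h => cube_comm_invol he.1 he.2.1 hx h hex⟩
  have a1 := comm_N hT he hn hW g
  have a2 := comm_N hT he hn (W_inv hW) g
  have h2 := (three_comm (he.conj g).1 hx (W_cube hT he hW g)).2
  have hcg := he.conj g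
  set c := g * e * g⁻¹ with hc
  rw [inv_inv] at a2
  -- c = (x⁻¹ c x) (x c x⁻¹)
  have k1 : (x * c * x⁻¹) ^ 2 = 1 := by rw [conj_pow, hcg.1]; simp
  have e1 : c = (x⁻¹ * c * x) * (x * c * x⁻¹) := by
    rw [h2, mul_assoc, ← pow_two, k1, mul_one]
  have e2 : n * c * n⁻¹ = (n * (x⁻¹ * c * x) * n⁻¹) * (n * (x * c * x⁻¹) * n⁻¹) := by
    calc n * c * n⁻¹ = n * ((x⁻¹ * c * x) * (x * c * x⁻¹)) * n⁻¹ := by rw [← e1]
      _ = _ := by simp only [mul_assoc, inv_mul_cancel_left]
  rw [e2, ← mul_assoc, a2, mul_assoc, a1, ← mul_assoc]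

include hT he hx hex in
theorem LFs_N : LFs (Subgroup.normalClosure {e}) := by
  intro s hs hsN
  set C := Group.conjugatesOfSet {e} with hC
  -- finitely many conjugates suffice
  have h1 : ∀ a ∈ Subgroup.normalClosure {e}, ∃ C0 : Set G, C0.Finite ∧ C0 ⊆ C ∧
      a ∈ Subgroup.closure C0 := by
    intro a ha
    unfold Subgroup.normalClosure at ha
    induction ha using Subgroup.closure_induction with
    | mem x hx => exact ⟨{x}, Set.finite_singleton x, by simpa using hx,
        Subgroup.subset_closure (Set.mem_singleton x)⟩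
    | one => exact ⟨∅, Set.finite_empty, Set.empty_subset _, one_mem _⟩
    | mul x y _ _ hx hy =>
      obtain ⟨A, hA, hAC, hxA⟩ := hx
      obtain ⟨B, hB, hBC, hyB⟩ := hy
      exact ⟨A ∪ B, hA.union hB, Set.union_subset hAC hBC,
        mul_mem (Subgroup.closure_mono Set.subset_union_left hxA)
          (Subgroup.closure_mono Set.subset_union_right hyB)⟩
    | inv x _ hx =>
      obtain ⟨A, hA, hAC, hxA⟩ := hx
      exact ⟨A, hA, hAC, inv_mem hxA⟩
  have h2 : ∃ C0 : Set G, C0.Finite ∧ C0 ⊆ C ∧ s ⊆ Subgroup.closure C0 := by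
    have : ∀ a : G, ∃ C0 : Set G, a ∈ s → (C0.Finite ∧ C0 ⊆ C ∧ a ∈ Subgroup.closure C0) := by
      intro a
      by_cases ha : a ∈ s
      · obtain ⟨C0, h⟩ := h1 a (hsN ha)
        exact ⟨C0, fun _ => h⟩
      · exact ⟨∅, fun h => absurd h ha⟩
    choose f hf using this
    refine ⟨⋃ a ∈ s, f a, hs.biUnion (fun a ha => (hf a ha).1), ?_, ?_⟩
    · exact Set.iUnion₂_subset (fun a ha => (hf a ha).2.1)
    · intro a ha
      exact Subgroup.closure_mono (Set.subset_biUnion_of_mem (u := f) ha) (hf a ha).2.2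
  obtain ⟨C0, hC0, hC0C, hsC⟩ := h2
  have hle : Subgroup.closure C0 ≤ Subgroup.normalClosure {e} := by
    rw [Subgroup.closure_le]
    exact hC0C.trans Subgroup.conjugatesOfSet_subset_normalClosure
  have hfin : Finite (Subgroup.closure C0) := by
    obtain ⟨m, f, -, hf⟩ := hC0.fin_param
    have hfC : ∀ i, f i ∈ C0 := fun i => by rw [← hf]; exact ⟨i, rfl⟩
    refine finite_invol m (Subgroup.closure C0)
      (fun i => ⟨f i, Subgroup.subset_closure (hfC i)⟩) ?_ ?_ ?_
    · have : Set.range (fun i => (⟨f i, Subgroup.subset_closure (hfC i)⟩ :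
          Subgroup.closure C0)) = (Subtype.val) ⁻¹' C0 := by
        ext z
        constructor
        · rintro ⟨i, rfl⟩; exact hfC i
        · intro hz
          have : (z : G) ∈ Set.range f := by rw [hf]; exact hz
          obtain ⟨i, hi⟩ := this
          exact ⟨i, Subtype.ext hi⟩
      rw [this]
      exact Subgroup.closure_closure_coe_preimage
    · intro i
      obtain ⟨g, hg⟩ := mem_conj (hC0C (hfC i))
      ext
      rw [Subgroup.coe_pow, Subgroup.coe_one]
      show f i ^ 2 = 1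
      rw [hg]; exact (he.conj g).1
    · intro i n
      obtain ⟨g, hg⟩ := mem_conj (hC0C (hfC i))
      ext
      push_cast
      rw [hg]
      exact comm_self hT he hx hex (hle n.2) g
  have hle2 : Subgroup.closure s ≤ Subgroup.closure C0 := (Subgroup.closure_le _).2 hsC
  exact Finite.of_injective (Subgroup.inclusion hle2) (Subgroup.inclusion_injective hle2)

end

/-- powers of translations -/
theorem pow_cube {a u : G} (ha : a ^ 3 = 1) (h1 : (a * u) ^ 3 = 1) (h2 : (a⁻¹ * u) ^ 3 = 1)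
    (j : ℕ) : (a * u ^ j) ^ 3 = 1 := by
  have ha3 : a * a * a = 1 := by simpa only [pow_succ, pow_zero, one_mul] using ha
  have ha2 : a⁻¹ * a⁻¹ = a := by
    rw [← mul_inv_rev, inv_eq_iff_mul_eq_one]; exact ha3
  have ha4 : a * a = a⁻¹ := by rw [eq_inv_iff_mul_eq_one]; exact ha3
  -- general expansion
  have ex : ∀ v : G, (a * v) ^ 3 = (a * v * a⁻¹) * (a⁻¹ * v * a) * v := by
    intro v
    calc (a * v) ^ 3 = a * v * (a * v) * (a * v) := by
          simp only [pow_succ, pow_zero, one_mul]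
      _ = a * v * (a⁻¹ * a⁻¹) * v * a * v := by rw [ha2]; simp only [mul_assoc]
      _ = _ := by simp only [mul_assoc]
  have ex2 : ∀ v : G, (a⁻¹ * v) ^ 3 = (a⁻¹ * v * a) * (a * v * a⁻¹) * v := by
    intro v
    calc (a⁻¹ * v) ^ 3 = a⁻¹ * v * a⁻¹ * v * a⁻¹ * v := by
          simp only [pow_succ, pow_zero, one_mul, mul_assoc]
      _ = a⁻¹ * v * (a * a) * v * a⁻¹ * v := by rw [ha4]
      _ = _ := by simp only [mul_assoc]
  set b := a * u * a⁻¹ with hb
  set c := a⁻¹ * u * a with hc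
  have k1 : b * c * u = 1 := by rw [← ex u]; exact h1
  have k2 : c * b * u = 1 := by rw [← ex2 u]; exact h2
  have hbc : b * c = c * b := by
    rw [mul_eq_one_iff_eq_inv] at k1 k2
    rw [k1, k2]
  have hu : u = (b * c)⁻¹ := by
    rw [mul_eq_one_iff_inv_eq] at k1; exact k1.symm
  have cbc : Commute b c := hbc
  rw [ex]
  have e1 : a * u ^ j * a⁻¹ = b ^ j := by rw [hb, conj_pow]
  have e2 : a⁻¹ * u ^ j * a = c ^ j := by
    have := conj_pow (a := a⁻¹) (b := u) (i := j)
    rw [inv_inv] at this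
    rw [hc, this]
  rw [e1, e2, ← cbc.mul_pow, hu, inv_pow, mul_inv_cancel]

/-- if the locally finite radical is trivial then all products of elements of order dividing 3
have order dividing 3 -/
theorem main1 (hA : HA G) (hP : ∀ g : G, ∃ i : ℕ, g ^ (3 * 2 ^ i) = 1)
    (hT : Subgroup.closure {x : G | x ^ 3 = 1} = ⊤)
    (hrad : ∀ N : Subgroup G, N.Normal → LFs N → N = ⊥) :
    ∀ x y : G, x ^ 3 = 1 → y ^ 3 = 1 → (x * y) ^ 3 = 1 := by
  intro x y hx hy
  by_contra hxy
  have h1 : (x⁻¹ * y) ^ 3 = 1 := (hA x y hx hy).resolve_left hxy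
  set a := x⁻¹ with ha
  set u := x * y with hu
  have ha3 : a ^ 3 = 1 := by rw [ha, inv_pow, hx, inv_one]
  have hau : a * u = y := by rw [ha, hu, inv_mul_cancel_left]
  have hau2 : a⁻¹ * u = x * x * y := by rw [ha, hu, inv_inv, mul_assoc]
  have hx2 : x * x = x⁻¹ := by
    rw [eq_inv_iff_mul_eq_one]; simpa only [pow_succ, pow_zero, one_mul] using hx
  have p1 : (a * u) ^ 3 = 1 := by rw [hau]; exact hy
  have p2 : (a⁻¹ * u) ^ 3 = 1 := by rw [hau2, hx2]; exact h1
  have hpow := pow_cube ha3 p1 p2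
  -- the involution
  obtain ⟨j, hj2, hj1⟩ : ∃ j : ℕ, (u ^ j) ^ 2 = 1 ∧ u ^ j ≠ 1 := by
    classical
    have hex := hP u
    have hm := Nat.find_spec hex
    have hmin := fun i => Nat.find_min hex (m := i)
    rcases hn : Nat.find hex with _ | i
    · exfalso
      rw [hn] at hm
      exact hxy (by simpa using hm)
    · rw [hn] at hm
      refine ⟨3 * 2 ^ i, ?_, hmin i (by omega)⟩
      rw [← pow_mul, mul_assoc, ← pow_succ]; exact hm
  have hea : (u ^ j * a) ^ 3 = 1 := cube_comm (hpow j)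
  have hgood : Good (u ^ j) := ⟨hj2, hj1, fun w hw => key hA hj2 hj1 ha3 hea hw⟩
  have hN := LFs_N hT hgood ha3 hea
  have h5 := hrad _ Subgroup.normalClosure_normal hN
  apply hj1
  have h6 : u ^ j ∈ Subgroup.normalClosure {u ^ j} :=
    Subgroup.subset_normalClosure (Set.mem_singleton _)
  rw [h5] at h6
  exact Subgroup.mem_bot.1 h6

/-- in a group generated by its elements of order dividing 3 -/
theorem main2 (hA : HA G) (hP : ∀ g : G, ∃ i : ℕ, g ^ (3 * 2 ^ i) = 1)
    (hT : Subgroup.closure {x : G | x ^ 3 = 1} = ⊤) : LFs (⊤ : Subgroup G) := by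
  -- the quotient by the radical
  have lift : ∀ q : G ⧸ rad G, q ^ 3 = 1 → ∃ g : G, g ^ 3 = 1 ∧ QuotientGroup.mk' (rad G) g = q := by
    intro q hq
    obtain ⟨g, rfl⟩ := QuotientGroup.mk'_surjective (rad G) q
    obtain ⟨i, hi⟩ := hP g
    refine ⟨g ^ (4 ^ i), ?_, ?_⟩
    · rw [← pow_mul]
      have e : 4 ^ i * 3 = 3 * 2 ^ i * 2 ^ i := by
        rw [mul_assoc, ← mul_pow]; norm_num [mul_comm]
      rw [e, pow_mul, hi, one_pow]
    · rw [map_pow]
      obtain ⟨t, ht⟩ : ∃ t, 4 ^ i = 3 * t + 1 := by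
        refine ⟨4 ^ i / 3, ?_⟩
        have h1 : 4 ^ i % 3 = 1 := by rw [Nat.pow_mod]; norm_num
        omega
      rw [ht, pow_succ, pow_mul, hq, one_pow, one_mul]
  have hA' : HA (G ⧸ rad G) := by
    intro p q hp hq
    obtain ⟨a, ha, rfl⟩ := lift p hp
    obtain ⟨b, hb, rfl⟩ := lift q hq
    rcases hA a b ha hb with h | h
    · left; rw [← map_mul, ← map_pow, h, map_one]
    · right; rw [← map_inv, ← map_mul, ← map_pow, h, map_one]
  have hP' : ∀ q : G ⧸ rad G, ∃ i : ℕ, q ^ (3 * 2 ^ i) = 1 := by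
    intro q
    obtain ⟨g, rfl⟩ := QuotientGroup.mk'_surjective (rad G) q
    obtain ⟨i, hi⟩ := hP g
    exact ⟨i, by rw [← map_pow, hi, map_one]⟩
  have hT' : Subgroup.closure {x : G ⧸ rad G | x ^ 3 = 1} = ⊤ := by
    rw [eq_top_iff]
    have h7 : (⊤ : Subgroup (G ⧸ rad G)) = (⊤ : Subgroup G).map (QuotientGroup.mk' (rad G)) := by
      rw [← MonoidHom.range_eq_map, QuotientGroup.range_mk']
    rw [h7, ← hT, MonoidHom.map_closure, Subgroup.closure_le]
    rintro _ ⟨x, hx, rfl⟩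
    refine Subgroup.subset_closure ?_
    show (QuotientGroup.mk' (rad G) x) ^ 3 = 1
    rw [← map_pow, show x ^ 3 = 1 from hx, map_one]
  have h3 := main1 hA' hP' hT' (fun N h1 h2 => rad_quot h1 h2)
  have hall : ∀ q : G ⧸ rad G, q ^ 3 = 1 := by
    intro q
    have hq : q ∈ Subgroup.closure {x : G ⧸ rad G | x ^ 3 = 1} := by
      rw [hT']; exact Subgroup.mem_top q
    induction hq using Subgroup.closure_induction with
    | mem x hx => exact hx
    | one => simp
    | mul x y _ _ hx hy => exact h3 x y hx hy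
    | inv x _ hx => rw [inv_pow, hx, inv_one]
  have hLF : LFs (⊤ : Subgroup (G ⧸ rad G)) := by
    intro s hs _
    refine finite_exp3 ?_ ?_
    · exact (Group.fg_iff_subgroup_fg _).2 ((Subgroup.fg_iff _).2 ⟨s, rfl, hs⟩)
    · intro q
      ext
      rw [Subgroup.coe_pow, hall, Subgroup.coe_one]
  have h8 : (⊤ : Subgroup (G ⧸ rad G)) = ⊥ := rad_quot inferInstance hLF
  refine rad_LFs.mono ?_
  intro g _
  have h9 : QuotientGroup.mk' (rad G) g ∈ (⊤ : Subgroup (G ⧸ rad G)) := Subgroup.mem_top _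
  rw [h8] at h9
  exact (QuotientGroup.eq_one_iff g).1 (Subgroup.mem_bot.1 h9)

/-- the subgroup generated by the elements of order dividing 3 -/
def KT (G : Type u) [Group G] : Subgroup G := Subgroup.closure {x : G | x ^ 3 = 1}

instance KT_normal : (KT G).Normal := by
  refine ⟨fun n hn g => ?_⟩
  unfold KT at hn ⊢
  induction hn using Subgroup.closure_induction with
  | mem x hx =>
    refine Subgroup.subset_closure ?_
    show (g * x * g⁻¹) ^ 3 = 1
    rw [conj_pow, show x ^ 3 = 1 from hx]; simp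
  | one => simp
  | mul x y _ _ hx hy =>
    have e : g * (x * y) * g⁻¹ = (g * x * g⁻¹) * (g * y * g⁻¹) := by
      simp only [mul_assoc, inv_mul_cancel_left]
    rw [e]; exact mul_mem hx hy
  | inv x _ hx =>
    have e : g * x⁻¹ * g⁻¹ = (g * x * g⁻¹)⁻¹ := by
      simp only [mul_inv_rev, inv_inv, mul_assoc]
    rw [e]; exact inv_mem hx

/-- the subgroup generated by the elements of order dividing 3 is locally finite -/
theorem LFs_KT (hA : HA G) (hP : ∀ g ∈ KT G, ∃ i : ℕ, g ^ (3 * 2 ^ i) = 1) : LFs (KT G) := by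
  have hKA : HA (KT G) := by
    intro a b ha hb
    have ha' : (a : G) ^ 3 = 1 := by rw [← Subgroup.coe_pow, ha, Subgroup.coe_one]
    have hb' : (b : G) ^ 3 = 1 := by rw [← Subgroup.coe_pow, hb, Subgroup.coe_one]
    rcases hA a b ha' hb' with h | h
    · left; ext; push_cast; exact h
    · right; ext; push_cast; exact h
  have hKP : ∀ g : KT G, ∃ i : ℕ, g ^ (3 * 2 ^ i) = 1 := by
    intro g
    obtain ⟨i, hi⟩ := hP g g.2
    exact ⟨i, by ext; push_cast; exact hi⟩
  have hKT : Subgroup.closure {x : KT G | x ^ 3 = 1} = ⊤ := by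
    have e : {x : KT G | x ^ 3 = 1} = Subtype.val ⁻¹' {x : G | x ^ 3 = 1} := by
      ext z
      constructor
      · intro hz
        show (z : G) ^ 3 = 1
        rw [← Subgroup.coe_pow, show z ^ 3 = 1 from hz, Subgroup.coe_one]
      · intro hz
        show z ^ 3 = 1
        ext; push_cast; exact hz
    rw [e]
    exact Subgroup.closure_closure_coe_preimage
  have hLF := (main2 hKA hKP hKT).map (KT G).subtype
  have e : (⊤ : Subgroup (KT G)).map (KT G).subtype = KT G := by
    rw [← MonoidHom.range_eq_map, Subgroup.range_subtype]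
  rwa [e] at hLF

theorem finite_of_LFs {G : Type u} [Group G] {K : Subgroup G} (hK : LFs K)
    (hfg : Group.FG G) (hq : Finite (G ⧸ K)) : Finite G := by
  have hKi : K.FiniteIndex := ⟨by rw [Subgroup.index]; exact Nat.card_pos.ne'⟩
  have hKfg : Group.FG K := Subgroup.fg_of_index_ne_zero _
  obtain ⟨S, hS⟩ := (Group.fg_iff_subgroup_fg K).1 hKfg
  have hKfin : Finite K := by
    have := hK (S : Set G) (Finset.finite_toSet S) (by rw [← hS]; exact Subgroup.subset_closure)
    rwa [hS] at this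
  exact finite_of_quot K hKfin hq

/-- finitely generated groups of exponent 12 -/
theorem main3 (hA : HA G) (h12 : ∀ g : G, g ^ 12 = 1) (hfg : Group.FG G) : Finite G := by
  have hLF := LFs_KT hA (fun g _ => ⟨2, by simpa using h12 g⟩)
  refine finite_of_LFs hLF hfg ?_
  refine finite_exp4 inferInstance ?_
  intro q
  obtain ⟨g, rfl⟩ := QuotientGroup.mk'_surjective (KT G) q
  rw [← map_pow]
  refine (QuotientGroup.eq_one_iff _).2 (Subgroup.subset_closure ?_)
  show (g ^ 4) ^ 3 = 1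
  rw [← pow_mul]; exact h12 g

end H555.E12
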