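import Pool.Agent.H555R2.E12.LF

/-!
A finitely generated 2-group with at most one involution is finite.
-/

universe u

namespace H555.E12

section

variable {P : Type u} [Group P] {z : P}

theorem zc (hz2 : z ^ 2 = 1) (hz1 : z ≠ 1) (hu : ∀ t : P, t ^ 2 = 1 → t = 1 ∨ t = z) (g : P) :
    g * z = z * g := by
  rcases hu (g * z * g⁻¹) (by rw [conj_pow, hz2]; simp) with h | h
  · exact absurd (by simpa using h) hz1
  · exact mul_inv_eq_iff_eq_mul.1 h

theorem ord4 (hu : ∀ t : P, t ^ 2 = 1 → t = 1 ∨ t = z)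
    (h2 : ∀ g : P, ∃ i : ℕ, g ^ (2 ^ i) = 1) {s : P} (hs1 : s ≠ 1) (hsz : s ≠ z) :
    ∃ k : ℕ, (s ^ (2 ^ k)) ^ 2 = z := by
  classical
  have hex := h2 s
  have hm := Nat.find_spec hex
  have hmin := fun i => Nat.find_min hex (m := i)
  rcases hn : Nat.find hex with _ | _ | i
  · rw [hn] at hm
    exact absurd (by simpa using hm) hs1
  · rw [hn] at hm
    rcases hu s (by simpa using hm) with h | h
    · exact absurd h hs1
    · exact absurd h hsz
  · refine ⟨i, ?_⟩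
    rw [hn] at hm
    have h1 : (s ^ 2 ^ i) ^ 2 = s ^ 2 ^ (i + 1) := by rw [← pow_mul, ← pow_succ]
    rcases hu ((s ^ 2 ^ i) ^ 2) (by rw [h1, ← pow_mul, ← pow_succ]; exact hm) with h | h
    · exfalso
      rw [h1] at h
      exact hmin (i + 1) (by omega) h
    · exact h

theorem comm4 (hu : ∀ t : P, t ^ 2 = 1 → t = 1 ∨ t = z) (hz2 : z ^ 2 = 1) {a b : P}
    (ha : a ^ 2 = z) (hb : b ^ 2 = z) (hab : a * b = b * a) : b = a ∨ b = a⁻¹ := by
  have h1 : (a * b) ^ 2 = 1 := by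
    rw [(show Commute a b from hab).mul_pow, ha, hb, ← pow_two, hz2]
  rcases hu _ h1 with h | h
  · right; exact (inv_eq_of_mul_eq_one_right h).symm
  · left
    rw [← ha, pow_two] at h
    exact mul_left_cancel h

theorem inv_pw {g s : P} (h : g * s * g⁻¹ = s⁻¹) (j : ℕ) : g * s ^ j * g⁻¹ = (s ^ j)⁻¹ := by
  rw [← conj_pow, h, inv_pow]

theorem sq_eq (hz2 : z ^ 2 = 1) (hz1 : z ≠ 1) (hu : ∀ t : P, t ^ 2 = 1 → t = 1 ∨ t = z)
    (h2 : ∀ g : P, ∃ i : ℕ, g ^ (2 ^ i) = 1) {a g h : P} (ha : a ^ 2 = z)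
    (hga : Commute g a) (hha : Commute h a) (hsq : g ^ 2 = h ^ 2) : g = h ∨ g = z * h := by
  by_cases hs1 : g * h⁻¹ = 1
  · left; exact mul_inv_eq_one.1 hs1
  by_cases hsz : g * h⁻¹ = z
  · right; exact mul_inv_eq_iff_eq_mul.1 hsz
  exfalso
  obtain ⟨k, hk⟩ := ord4 hu h2 hs1 hsz
  have hinv : g * (g * h⁻¹) * g⁻¹ = (g * h⁻¹)⁻¹ := by
    rw [mul_inv_rev, inv_inv, ← mul_assoc, ← pow_two, hsq, pow_two]
    simp only [mul_assoc, mul_inv_cancel_left]
  have hinv2 := inv_pw hinv (2 ^ k)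
  have hsa : Commute (g * h⁻¹) a := hga.mul_left hha.inv_left
  have hs := hsa.pow_left (2 ^ k)
  set s := (g * h⁻¹) ^ 2 ^ k with hsdef
  have hgs : g * s * g⁻¹ = s := by
    rcases comm4 hu hz2 ha hk hs.symm.eq with h5 | h5
    · rw [h5, hga.eq, mul_inv_cancel_right]
    · rw [h5, hga.inv_right.eq, mul_inv_cancel_right]
  rw [hgs] at hinv2
  have h6 : s ^ 2 = 1 := by rw [pow_two]; nth_rewrite 1 [hinv2]; exact inv_mul_cancel s
  rw [h6] at hk
  exact hz1 hk.symm

theorem inv_root (hz2 : z ^ 2 = 1) (hz1 : z ≠ 1) (hu : ∀ t : P, t ^ 2 = 1 → t = 1 ∨ t = z)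
    (h2 : ∀ g : P, ∃ i : ℕ, g ^ (2 ^ i) = 1) {a f e : P} (ha : a ^ 2 = z)
    (hf : f * a * f⁻¹ = a⁻¹) (he : e ^ 2 = a) : f * e * f⁻¹ = e⁻¹ := by
  have hnc : ¬ Commute f a := by
    intro h
    rw [h.eq, mul_inv_cancel_right] at hf
    have h6 : a ^ 2 = 1 := by rw [pow_two]; nth_rewrite 1 [hf]; exact inv_mul_cancel a
    rw [h6] at ha
    exact hz1 ha.symm
  have hf1 : f ≠ 1 := fun h => hnc (by rw [h]; exact Commute.one_left a)
  have hzz := zc hz2 hz1 hu
  have hfz : f ≠ z := fun h => hnc (by rw [h]; exact (hzz a).symm)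
  have hf2 : f ^ 2 = z := by
    obtain ⟨k, hk⟩ := ord4 hu h2 hf1 hfz
    rcases k with _ | k
    · simpa using hk
    · exfalso
      have h3 : Commute (f ^ 2) a := by
        have h4 : f ^ 2 * a * (f ^ 2)⁻¹ = a := by
          calc f ^ 2 * a * (f ^ 2)⁻¹ = f * (f * a * f⁻¹) * f⁻¹ := by
                rw [pow_two, mul_inv_rev]; simp only [mul_assoc]
            _ = f * a⁻¹ * f⁻¹ := by rw [hf]
            _ = (f * a * f⁻¹)⁻¹ := by simp only [mul_inv_rev, inv_inv, mul_assoc]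
            _ = a := by rw [hf, inv_inv]
        exact mul_inv_eq_iff_eq_mul.1 h4
      have h5 : Commute (f ^ 2 ^ (k + 1)) a := by
        rw [show (2 : ℕ) ^ (k + 1) = 2 * 2 ^ k by rw [pow_succ, mul_comm], pow_mul]
        exact h3.pow_left _
      have h6 : Commute f (f ^ 2 ^ (k + 1)) := (Commute.refl f).pow_right _
      rcases comm4 hu hz2 ha hk h5.symm.eq with h7 | h7
      · rw [h7] at h6; exact hnc h6
      · rw [h7] at h6; exact hnc (by simpa using h6.inv_right)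
  have hea : Commute e a := by rw [← he]; exact (Commute.refl e).pow_right 2
  have hgc : Commute (f * e * f⁻¹) a := by
    have h3 : Commute (f * e * f⁻¹) (f * a * f⁻¹) := (Commute.conj_iff f).2 hea
    rw [hf] at h3
    simpa using h3.inv_right
  have hsq : (f * e * f⁻¹) ^ 2 = (e⁻¹) ^ 2 := by
    rw [conj_pow, he, hf, inv_pow, he]
  rcases sq_eq hz2 hz1 hu h2 ha hgc hea.inv_left hsq with h | h
  · exact h
  exfalso
  -- (f e) ^ 2 = 1
  have h3 : (f * e) ^ 2 = 1 := by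
    have h4 : f * e = z * e⁻¹ * f := by rw [← h, inv_mul_cancel_right]
    calc (f * e) ^ 2 = (f * e) * (f * e) := pow_two _
      _ = (z * e⁻¹ * f) * (f * e) := by nth_rewrite 1 [h4]; rfl
      _ = z * e⁻¹ * f ^ 2 * e := by rw [pow_two]; simp only [mul_assoc]
      _ = z * (e⁻¹ * z) * e := by rw [hf2, mul_assoc z]
      _ = z * z * (e⁻¹ * e) := by rw [hzz]; simp only [mul_assoc]
      _ = 1 := by rw [← pow_two, hz2, inv_mul_cancel, mul_one]
  have hce : Commute f e := by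
    rcases hu _ h3 with h5 | h5
    · rw [mul_eq_one_iff_eq_inv.1 h5]; exact (Commute.refl e).inv_left
    · have h6 : f = z * e⁻¹ := by rw [← h5, mul_inv_cancel_right]
      rw [h6]
      exact (show Commute z e from (hzz e).symm).mul_left (Commute.refl e).inv_left
  apply hnc
  rw [← he]
  exact hce.pow_right 2

/-- an element of 2-power order whose cube commutes with `a` commutes with `a` -/
theorem comm_of_cube {u a : P} {i : ℕ} (hi : u ^ (2 ^ i) = 1) (h : Commute (u ^ 3) a) :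
    Commute u a := by
  obtain ⟨t, ht⟩ : ∃ t, 4 ^ i = 3 * t + 1 := by
    refine ⟨4 ^ i / 3, ?_⟩
    have h1 : 4 ^ i % 3 = 1 := by rw [Nat.pow_mod]; norm_num
    omega
  have h4 : u ^ (4 ^ i) = 1 := by
    rw [show (4 : ℕ) ^ i = 2 ^ i * 2 ^ i by rw [← mul_pow]; norm_num, pow_mul, hi, one_pow]
  rw [ht, pow_succ, pow_mul, mul_eq_one_iff_inv_eq] at h4
  rw [← h4]
  exact (h.pow_left t).inv_left

theorem twoRoots (hz2 : z ^ 2 = 1) (hz1 : z ≠ 1) (hu : ∀ t : P, t ^ 2 = 1 → t = 1 ∨ t = z)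
    (h2 : ∀ g : P, ∃ i : ℕ, g ^ (2 ^ i) = 1) {a b e d : P} (ha : a ^ 2 = z) (hb : b ^ 2 = z)
    (hba : b * a * b⁻¹ = a⁻¹) (he : e ^ 2 = a) (hd : d ^ 2 = b) : False := by
  have hzz := zc hz2 hz1 hu
  have hbi : b⁻¹ = z * b := by
    rw [inv_eq_iff_mul_eq_one, ← hzz, ← mul_assoc, ← pow_two, hb, ← pow_two, hz2]
  have hai : a⁻¹ = z * a := by
    rw [inv_eq_iff_mul_eq_one, ← hzz, ← mul_assoc, ← pow_two, ha, ← pow_two, hz2]
  -- b a = a⁻¹ b
  have k1 : b * a = a⁻¹ * b := mul_inv_eq_iff_eq_mul.1 hba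
  have k2 : a * b * a = b := by rw [mul_assoc, k1, mul_inv_cancel_left]
  have k3 : b * a * b = a := by
    rw [k1, mul_assoc, ← pow_two, hb, ← ha, pow_two, inv_mul_cancel_left]
  have hab : a * b * a⁻¹ = b⁻¹ := by
    rw [mul_inv_eq_iff_eq_mul, eq_inv_mul_iff_mul_eq, ← mul_assoc]; exact k3
  have h1 := inv_root hz2 hz1 hu h2 ha hba he
  have h3 := inv_root hz2 hz1 hu h2 hb hab hd
  -- e b e⁻¹ = a b
  have m1 : e * b * e⁻¹ = a * b := by
    have : b * e⁻¹ = e * b := by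
      have h5 := mul_inv_eq_iff_eq_mul.1 h1
      rw [eq_inv_mul_iff_mul_eq] at h5
      have h6 : e * b * e = b := by rw [mul_assoc]; exact h5
      nth_rewrite 1 [← h6]
      rw [mul_inv_cancel_right]
    rw [mul_assoc, this, ← mul_assoc, ← pow_two, he]
  have m2 : d * a * d⁻¹ = b * a := by
    have : a * d⁻¹ = d * a := by
      have h5 := mul_inv_eq_iff_eq_mul.1 h3
      rw [eq_inv_mul_iff_mul_eq] at h5
      have h6 : d * a * d = a := by rw [mul_assoc]; exact h5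
      nth_rewrite 1 [← h6]
      rw [mul_inv_cancel_right]
    rw [mul_assoc, this, ← mul_assoc, ← pow_two, hd]
  have m3 : e * a * e⁻¹ = a := by
    rw [mul_inv_eq_iff_eq_mul, ← he, pow_two, mul_assoc]
  have m4 : d * b * d⁻¹ = b := by
    rw [mul_inv_eq_iff_eq_mul, ← hd, pow_two, mul_assoc]
  -- conjugation by u = e d
  have cj : ∀ g x y : P, g * (x * y) * g⁻¹ = (g * x * g⁻¹) * (g * y * g⁻¹) := by
    intro g x y; simp only [mul_assoc, inv_mul_cancel_left]
  set w := e * d with hw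
  have cu : ∀ x : P, w * x * w⁻¹ = e * (d * x * d⁻¹) * e⁻¹ := by
    intro x; rw [hw, mul_inv_rev]; simp only [mul_assoc]
  have n1 : w * a * w⁻¹ = b := by
    rw [cu, m2, cj, m1, m3, k2]
  have n2 : w * b * w⁻¹ = a * b := by rw [cu, m4, m1]
  have n3 : w * (a * b) * w⁻¹ = a := by
    rw [cj, n1, n2, ← mul_assoc, k3]
  have n4 : Commute (w ^ 3) a := by
    have : w ^ 3 * a * (w ^ 3)⁻¹ = a := by
      calc w ^ 3 * a * (w ^ 3)⁻¹ = w * (w * (w * a * w⁻¹) * w⁻¹) * w⁻¹ := by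
            simp only [pow_succ, pow_zero, one_mul, mul_inv_rev, mul_assoc]
        _ = a := by rw [n1, n2, n3]
    exact mul_inv_eq_iff_eq_mul.1 this
  obtain ⟨i, hi⟩ := h2 w
  have n5 := comm_of_cube hi n4
  have n6 : b = a := by rw [← n1, n5.eq, mul_inv_cancel_right]
  rw [n6, mul_inv_cancel_right] at hba
  have h6 : a ^ 2 = 1 := by rw [pow_two]; nth_rewrite 1 [hba]; exact inv_mul_cancel a
  rw [h6] at ha
  exact hz1 ha.symm

theorem normal_a (hz2 : z ^ 2 = 1) (hz1 : z ≠ 1) (hu : ∀ t : P, t ^ 2 = 1 → t = 1 ∨ t = z)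
    (h2 : ∀ g : P, ∃ i : ℕ, g ^ (2 ^ i) = 1) {a b e d : P} (ha : a ^ 2 = z) (hb : b ^ 2 = z)
    (he : e ^ 2 = a) (hd : d ^ 2 = b) : b = a ∨ b = a⁻¹ := by
  have hzz := zc hz2 hz1 hu
  have hbi : b⁻¹ = z * b := by
    rw [inv_eq_iff_mul_eq_one, ← hzz, ← mul_assoc, ← pow_two, hb, ← pow_two, hz2]
  by_cases hs1 : a * b = 1
  · right; exact (inv_eq_of_mul_eq_one_right hs1).symm
  by_cases hsz : a * b = z
  · left
    rw [← ha, pow_two] at hsz
    exact mul_left_cancel hsz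
  exfalso
  -- a inverts a b
  have hinv : a * (a * b) * a⁻¹ = (a * b)⁻¹ := by
    rw [mul_inv_rev, hbi, ← mul_assoc a a b, ← pow_two, ha]
  obtain ⟨k, hk⟩ := ord4 hu h2 hs1 hsz
  rcases k with _ | k
  · have h3 : a * b * (a * b) = z := by simpa [pow_two] using hk
    have hai : a⁻¹ * z = a := by rw [← ha, pow_two, inv_mul_cancel_left]
    have h4 : b * a * b = a := by
      calc b * a * b = a⁻¹ * (a * b * (a * b)) := by
            simp only [mul_assoc, inv_mul_cancel_left]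
        _ = a⁻¹ * z := by rw [h3]
        _ = a := hai
    have h5 : b * a * b⁻¹ = a⁻¹ := by
      have h6 : b * a = a * b⁻¹ := by rw [eq_mul_inv_iff_mul_eq]; exact h4
      rw [h6, mul_assoc, ← mul_inv_rev, ← pow_two, hb]
      rw [← ha, pow_two, mul_inv_rev, mul_inv_cancel_left]
    exact twoRoots hz2 hz1 hu h2 ha hb h5 he hd
  · have hinv2 := inv_pw hinv (2 ^ (k + 1))
    refine twoRoots hz2 hz1 hu h2 (a := (a * b) ^ 2 ^ (k + 1)) (b := a)
      (e := (a * b) ^ 2 ^ k) (d := e) hk ha hinv2 ?_ he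
    rw [← pow_mul, ← pow_succ]

theorem pow_order (h2 : ∀ g : P, ∃ i : ℕ, g ^ (2 ^ i) = 1) (g : P) :
    ∃ k : ℕ, orderOf g = 2 ^ k := by
  obtain ⟨i, hi⟩ := h2 g
  obtain ⟨k, -, hk⟩ := (Nat.dvd_prime_pow Nat.prime_two).1 (orderOf_dvd_of_pow_eq_one hi)
  exact ⟨k, hk⟩

theorem z_mem (hu : ∀ t : P, t ^ 2 = 1 → t = 1 ∨ t = z) {g : P} {m : ℕ}
    (hg : orderOf g = 2 ^ (m + 1)) : z ∈ Subgroup.zpowers g := by
  rcases hu (g ^ 2 ^ m) (by rw [← pow_mul, ← pow_succ, ← hg, pow_orderOf_eq_one]) with h | h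
  · exfalso
    have h1 := orderOf_dvd_of_pow_eq_one h
    rw [hg] at h1
    have h3 := Nat.le_of_dvd (by positivity) h1
    have h4 : 2 ^ m < 2 ^ (m + 1) := Nat.pow_lt_pow_right (by norm_num) (by omega)
    omega
  · rw [← h]; exact Subgroup.npow_mem_zpowers g _

theorem uniserial (hz2 : z ^ 2 = 1) (hz1 : z ≠ 1) (hu : ∀ t : P, t ^ 2 = 1 → t = 1 ∨ t = z)
    (h2 : ∀ g : P, ∃ i : ℕ, g ^ (2 ^ i) = 1) {a : P} (ha : a ^ 2 = z) {g : P}
    (hga : Commute g a) {m : ℕ} (hg : orderOf g = 2 ^ m) (l : ℕ) :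
    ∀ h : P, Commute h a → h ^ (2 ^ l) = 1 → l ≤ m → h ∈ Subgroup.zpowers g := by
  induction l with
  | zero =>
    intro h _ h1 _
    have : h = 1 := by simpa using h1
    rw [this]; exact one_mem _
  | succ l ih =>
    intro h hha h1 hlm
    obtain ⟨m, rfl⟩ : ∃ m', m = m' + 1 := ⟨m - 1, by omega⟩
    have hzg := z_mem hu hg
    have h3 : h ^ 2 ∈ Subgroup.zpowers g := by
      refine ih (h ^ 2) (hha.pow_left 2) ?_ (by omega)
      rw [← pow_mul, mul_comm, ← pow_succ]; exact h1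
    obtain ⟨j, hj⟩ := Subgroup.mem_zpowers_iff.1 h3
    have h4 : g ^ (j * 2 ^ l) = 1 := by
      rw [zpow_mul, hj]
      have : (h ^ 2) ^ ((2 : ℤ) ^ l) = (h ^ 2) ^ (2 ^ l) := by
        rw [← zpow_natCast (h ^ 2) (2 ^ l)]; push_cast; rfl
      rw [this, ← pow_mul, mul_comm, ← pow_succ]; exact h1
    have h5 : ((orderOf g : ℕ) : ℤ) ∣ j * 2 ^ l := orderOf_dvd_iff_zpow_eq_one.2 h4
    have h6 : (2 : ℤ) ∣ j := by
      have h7 : (2 : ℤ) * 2 ^ l ∣ j * 2 ^ l := by
        refine Dvd.dvd.trans ?_ h5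
        rw [hg]; push_cast
        rw [← pow_succ']
        exact pow_dvd_pow 2 (by omega)
      exact (mul_dvd_mul_iff_right (by positivity)).1 h7
    obtain ⟨i, rfl⟩ := h6
    have hgi : g ^ i ∈ Subgroup.zpowers g := Subgroup.mem_zpowers_iff.2 ⟨i, rfl⟩
    have h8 : h ^ 2 = (g ^ i) ^ 2 := by
      rw [← hj, mul_comm, zpow_mul, zpow_ofNat]
    rcases sq_eq hz2 hz1 hu h2 ha hha (hga.zpow_left i) h8 with h9 | h9
    · rw [h9]; exact hgi
    · rw [h9]; exact mul_mem hzg hgi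

/-- A finitely generated 2-group with at most one involution is finite. -/
theorem uniq_finite (hfg : Group.FG P) (h2 : ∀ g : P, ∃ i : ℕ, g ^ (2 ^ i) = 1)
    (hone : ∀ s t : P, s ^ 2 = 1 → s ≠ 1 → t ^ 2 = 1 → t ≠ 1 → s = t) : Finite P := by
  by_cases hex : ∃ e : P, e ^ 8 = 1 ∧ e ^ 4 ≠ 1
  swap
  · refine finite_exp4 hfg ?_
    intro g
    by_contra hg
    classical
    have hm := Nat.find_spec (h2 g)
    have hmin := fun i => Nat.find_min (h2 g) (m := i)
    rcases hn : Nat.find (h2 g) with _ | _ | _ | i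
    · rw [hn] at hm; exact hg (by rw [show g = 1 by simpa using hm]; simp)
    · rw [hn] at hm
      exact hg (by
        rw [show (4 : ℕ) = 2 ^ (0 + 1) * 2 by norm_num, pow_mul, hm, one_pow])
    · rw [hn] at hm; exact hg (by simpa using hm)
    · rw [hn] at hm
      apply hex
      refine ⟨g ^ 2 ^ i, ?_, ?_⟩
      · rw [← pow_mul]
        have : 2 ^ i * 8 = 2 ^ (i + 1 + 1 + 1) := by simp only [pow_succ, mul_assoc]; norm_num
        rw [this]; exact hm
      · rw [← pow_mul]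
        have : 2 ^ i * 4 = 2 ^ (i + 1 + 1) := by simp only [pow_succ, mul_assoc]; norm_num
        rw [this]; exact hmin (i + 1 + 1) (by omega)
  obtain ⟨e, he8, he4⟩ := hex
  set a := e ^ 2 with ha0
  set z := a ^ 2 with hz0
  have hze : z = e ^ 4 := by rw [hz0, ha0, ← pow_mul]
  have hz1 : z ≠ 1 := by rw [hze]; exact he4
  have hz2 : z ^ 2 = 1 := by rw [hze, ← pow_mul]; exact he8
  have hu : ∀ t : P, t ^ 2 = 1 → t = 1 ∨ t = z := by
    intro t ht
    by_cases ht1 : t = 1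
    · left; exact ht1
    · right; exact hone t z ht ht1 hz2 hz1
  have hconj : ∀ g : P, g * a * g⁻¹ = a ∨ g * a * g⁻¹ = a⁻¹ := by
    intro g
    refine normal_a hz2 hz1 hu h2 (e := e) (d := g * e * g⁻¹) hz0.symm ?_ ha0.symm ?_
    · rw [conj_pow, ← hz0, zc hz2 hz1 hu, mul_inv_cancel_right]
    · rw [conj_pow]
  set C : Subgroup P := Subgroup.centralizer {a} with hC
  have hCmem : ∀ g : P, g ∈ C ↔ g * a = a * g := by
    intro g
    rw [hC, Subgroup.mem_centralizer_singleton_iff]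
  have hCq : Finite (P ⧸ C) := by
    by_cases hall : ∀ g : P, g ∈ C
    · refine Finite.of_surjective (fun _ : Unit => (QuotientGroup.mk 1 : P ⧸ C)) ?_
      intro q
      obtain ⟨g, rfl⟩ := QuotientGroup.mk_surjective q
      refine ⟨(), ?_⟩
      rw [QuotientGroup.eq]; exact hall _
    · obtain ⟨t, ht⟩ := not_forall.1 hall
      have ht' : t * a * t⁻¹ = a⁻¹ := by
        rcases hconj t with h | h
        · exact absurd ((hCmem t).2 (mul_inv_eq_iff_eq_mul.1 h)) ht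
        · exact h
      refine Finite.of_surjective (fun b : Bool => (QuotientGroup.mk (cond b 1 t) : P ⧸ C)) ?_
      intro q
      obtain ⟨g, rfl⟩ := QuotientGroup.mk_surjective q
      rcases hconj g with h | h
      · refine ⟨true, ?_⟩
        rw [QuotientGroup.eq]
        show 1⁻¹ * g ∈ C
        rw [inv_one, one_mul]
        exact (hCmem g).2 (mul_inv_eq_iff_eq_mul.1 h)
      · refine ⟨false, ?_⟩
        rw [QuotientGroup.eq, hCmem]
        show t⁻¹ * g * a = a * (t⁻¹ * g)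
        have h3 := mul_inv_eq_iff_eq_mul.1 h
        have h4 := mul_inv_eq_iff_eq_mul.1 ht'
        have h5 : t⁻¹ * a⁻¹ = a * t⁻¹ := by
          rw [inv_mul_eq_iff_eq_mul, ← mul_assoc, h4, mul_inv_cancel_right]
        rw [mul_assoc, h3, ← mul_assoc, h5, mul_assoc]
  have hCi : C.FiniteIndex := ⟨by rw [Subgroup.index]; exact Nat.card_pos.ne'⟩
  have hCfg : Group.FG C := Subgroup.fg_of_index_ne_zero _
  obtain ⟨S, hS⟩ := (Group.fg_iff_subgroup_fg C).1 hCfg
  have hSC : ∀ s ∈ S, s ∈ C := fun s hs => by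
    rw [← hS]; exact Subgroup.subset_closure hs
  have hCfin : Finite C := by
    rcases S.eq_empty_or_nonempty with hSe | hSe
    · rw [hSe] at hS
      rw [← hS]
      simp only [Finset.coe_empty, Subgroup.closure_empty]
      infer_instance
    · obtain ⟨g, hgS, hgmax⟩ := Finset.exists_max_image S orderOf hSe
      obtain ⟨m, hm⟩ := pow_order h2 g
      have hle : C ≤ Subgroup.zpowers g := by
        rw [← hS, Subgroup.closure_le]
        intro s hs
        obtain ⟨l, hl⟩ := pow_order h2 s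
        refine uniserial hz2 hz1 hu h2 hz0.symm ((hCmem g).1 (hSC g hgS)) hm l s
          ((hCmem s).1 (hSC s hs)) (by rw [← hl]; exact pow_orderOf_eq_one s) ?_
        have := hgmax s hs
        rw [hl, hm] at this
        exact (Nat.pow_le_pow_iff_right (by norm_num)).1 this
      have hgfin : Finite (Subgroup.zpowers g) := by
        rw [← Nat.card_pos_iff.trans (and_iff_right ⟨1⟩), Nat.card_zpowers, hm]
        positivity
      exact Finite.of_injective (Subgroup.inclusion hle) (Subgroup.inclusion_injective hle)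
  exact finite_of_quot C hCfin hCq

end

end H555.E12
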