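import Pool.Agent.H555R2.E12.Main
import Pool.Agent.H555R2.E12.Uniq

/-!
Groups whose elements have order 3 or a power of 2.
-/

universe u

namespace H555.E12

section

variable {G : Type u} [Group G]

/-- every element has order dividing 3 or a power of 2 -/
def HO (G : Type u) [Group G] : Prop := ∀ g : G, g ^ 3 = 1 ∨ ∃ i : ℕ, g ^ (2 ^ i) = 1

theorem cube_two {g : G} (h3 : g ^ 3 = 1) {i : ℕ} (h2 : g ^ (2 ^ i) = 1) : g = 1 := by
  obtain ⟨t, ht⟩ : ∃ t, 4 ^ i = 3 * t + 1 := by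
    refine ⟨4 ^ i / 3, ?_⟩
    have h1 : 4 ^ i % 3 = 1 := by rw [Nat.pow_mod]; norm_num
    omega
  have h4 : g ^ (4 ^ i) = 1 := by
    rw [show (4 : ℕ) ^ i = 2 ^ i * 2 ^ i by rw [← mul_pow]; norm_num, pow_mul, h2, one_pow]
  rwa [ht, pow_succ, pow_mul, h3, one_pow, one_mul] at h4

theorem no6 (hO : HO G) {c w : G} (hc : c ^ 2 = 1) (hc1 : c ≠ 1) (hw : w ^ 3 = 1)
    (hw1 : w ≠ 1) : c * w ≠ w * c := by
  intro h
  rcases hO (c * w) with h3 | ⟨i, hi⟩
  · exact cube_comm_invol hc hc1 hw h h3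
  · have h4 : (c * w) ^ (2 ^ i * 2) = 1 := by rw [pow_mul, hi, one_pow]
    rw [(show Commute c w from h).mul_pow, mul_comm (2 ^ i), pow_mul, hc, one_pow, one_mul,
      mul_comm, ← pow_succ] at h4
    exact hw1 (cube_two hw h4)

theorem no6' (hO : HO G) {w : G} (hw : w ^ 3 = 1) (hw1 : w ≠ 1) (i : ℕ) :
    ∀ c : G, c ^ (2 ^ i) = 1 → Commute c w → c = 1 := by
  induction i with
  | zero => intro c hc _; simpa using hc
  | succ i ih =>
    intro c hc hcw
    have h1 : c ^ 2 = 1 := by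
      refine ih (c ^ 2) ?_ (hcw.pow_left 2)
      rw [← pow_mul, mul_comm, ← pow_succ]; exact hc
    by_contra hc1
    exact no6 hO h1 hc1 hw hw1 hcw.eq

theorem conj_cube {w : G} (hw : w ^ 3 = 1) (g : G) : (g * w * g⁻¹) ^ 3 = 1 := by
  rw [conj_pow, hw]; simp

/-- the elements whose product with every element of order 3 has order 3 -/
def MM (G : Type u) [Group G] : Subgroup G where
  carrier := {g | ∀ w : G, w ^ 3 = 1 → w ≠ 1 → (g * w) ^ 3 = 1 ∧ g * w ≠ 1}
  one_mem' := fun w hw hw1 => by rw [one_mul]; exact ⟨hw, hw1⟩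
  mul_mem' := by
    intro a b ha hb w hw hw1
    rw [mul_assoc]
    exact ha _ (hb w hw hw1).1 (hb w hw hw1).2
  inv_mem' := by
    intro g hg w hw hw1
    have hwi : w⁻¹ ^ 3 = 1 := by rw [inv_pow, hw, inv_one]
    obtain ⟨h1, h2⟩ := hg w⁻¹ hwi (by simpa using hw1)
    have e : g⁻¹ * w = w⁻¹ * (g * w⁻¹)⁻¹ * w⁻¹⁻¹ := by
      simp only [mul_inv_rev, inv_inv, inv_mul_cancel_left]
    refine ⟨?_, ?_⟩
    · rw [e, conj_pow, inv_pow, h1]; simp
    · intro h
      rw [e, conj_eq_one_iff, inv_eq_one] at h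
      exact h2 h

theorem mem_MM {g : G} : g ∈ MM G ↔ ∀ w : G, w ^ 3 = 1 → w ≠ 1 → (g * w) ^ 3 = 1 ∧ g * w ≠ 1 :=
  Iff.rfl

instance MM_normal : (MM G).Normal := by
  refine ⟨fun n hn g => ?_⟩
  intro w hw hw1
  have hw' : (g⁻¹ * w * g) ^ 3 = 1 := cube_conj g hw
  have hw1' : g⁻¹ * w * g ≠ 1 := by
    intro h
    apply hw1
    have := congrArg (fun t => g * t * g⁻¹) h
    simpa only [mul_assoc, mul_inv_cancel_left, mul_inv_cancel, mul_one] using this
  obtain ⟨h1, h2⟩ := hn _ hw' hw1'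
  have e : g * n * g⁻¹ * w = g * (n * (g⁻¹ * w * g)) * g⁻¹ := by
    simp only [mul_assoc, mul_inv_cancel, mul_one]
  refine ⟨?_, ?_⟩
  · rw [e, conj_pow, h1]; simp
  · intro h
    rw [e, conj_eq_one_iff] at h
    exact h2 h

theorem MM_cube {g : G} (hg : g ∈ MM G) (h3 : g ^ 3 = 1) : g = 1 := by
  by_contra h1
  exact ((MM G).inv_mem hg g h3 h1).2 (inv_mul_cancel g)

theorem MM_two (hO : HO G) {g : G} (hg : g ∈ MM G) : ∃ i : ℕ, g ^ (2 ^ i) = 1 := by
  rcases hO g with h | h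
  · exact ⟨0, by rw [MM_cube hg h, one_pow]⟩
  · exact h

/-- commutation of `c` with its conjugate under `n` -/
theorem comm_core {c x n : G} (hc : c ^ 2 = 1) (hx : x ^ 3 = 1) (h1 : (c * x) ^ 3 = 1)
    (hn1 : (n * x) ^ 3 = 1) (hcn1 : (c * (n * x)) ^ 3 = 1) (hn2 : (n * x⁻¹) ^ 3 = 1)
    (hcn2 : (c * (n * x⁻¹)) ^ 3 = 1) : c * (n * c * n⁻¹) = (n * c * n⁻¹) * c := by
  have a1 := (three_comm hc hn1 hcn1).1
  have a2 := (three_comm hc hn2 hcn2).1
  have h2 := (three_comm hc hx h1).2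
  have e3 : n * x * c * (n * x)⁻¹ = n * (x * c * x⁻¹) * n⁻¹ := by
    rw [mul_inv_rev]; simp only [mul_assoc]
  have e4 : n * x⁻¹ * c * (n * x⁻¹)⁻¹ = n * (x⁻¹ * c * x) * n⁻¹ := by
    rw [mul_inv_rev, inv_inv]; simp only [mul_assoc]
  rw [e3] at a1
  rw [e4] at a2
  have k1 : (x * c * x⁻¹) ^ 2 = 1 := by rw [conj_pow, hc]; simp
  have e1 : c = (x⁻¹ * c * x) * (x * c * x⁻¹) := by
    rw [h2, mul_assoc, ← pow_two, k1, mul_one]
  have e2 : n * c * n⁻¹ = (n * (x⁻¹ * c * x) * n⁻¹) * (n * (x * c * x⁻¹) * n⁻¹) := by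
    calc n * c * n⁻¹ = n * ((x⁻¹ * c * x) * (x * c * x⁻¹)) * n⁻¹ := by rw [← e1]
      _ = _ := by simp only [mul_assoc, inv_mul_cancel_left]
  rw [e2, ← mul_assoc, a2, mul_assoc, a1, ← mul_assoc]

/-- the normal closure of an involution commuting with its conjugates is locally finite -/
theorem LFs_nc {e : G} (he2 : e ^ 2 = 1) (hcomm : ∀ n ∈ Subgroup.normalClosure {e}, ∀ g : G,
    (g * e * g⁻¹) * (n * (g * e * g⁻¹) * n⁻¹) = (n * (g * e * g⁻¹) * n⁻¹) * (g * e * g⁻¹)) :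
    LFs (Subgroup.normalClosure {e}) := by
  intro s hs hsN
  set C := Group.conjugatesOfSet {e} with hC
  have h1 : ∀ a ∈ Subgroup.normalClosure {e}, ∃ C0 : Set G, C0.Finite ∧ C0 ⊆ C ∧
      a ∈ Subgroup.closure C0 := by
    intro a ha
    unfold Subgroup.normalClosure at ha
    induction ha using Subgroup.closure_induction with
    | mem x hx => exact ⟨{x}, Set.finite_singleton x, by simpa using hx,
        Subgroup.subset_closure (Set.mem_singleton x)⟩
    | one => exact ⟨∅, Set.finite_empty, Set.empty_subset _, one_mem _⟩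
    | mul x y _ _ hx hy =>
      obtain ⟨A, hA, hAC, hxA⟩ := hx
      obtain ⟨B, hB, hBC, hyB⟩ := hy
      exact ⟨A ∪ B, hA.union hB, Set.union_subset hAC hBC,
        mul_mem (Subgroup.closure_mono Set.subset_union_left hxA)
          (Subgroup.closure_mono Set.subset_union_right hyB)⟩
    | inv x _ hx =>
      obtain ⟨A, hA, hAC, hxA⟩ := hx
      exact ⟨A, hA, hAC, inv_mem hxA⟩
  have h2 : ∃ C0 : Set G, C0.Finite ∧ C0 ⊆ C ∧ s ⊆ Subgroup.closure C0 := by
    have : ∀ a : G, ∃ C0 : Set G, a ∈ s → (C0.Finite ∧ C0 ⊆ C ∧ a ∈ Subgroup.closure C0) := by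
      intro a
      by_cases ha : a ∈ s
      · obtain ⟨C0, h⟩ := h1 a (hsN ha)
        exact ⟨C0, fun _ => h⟩
      · exact ⟨∅, fun h => absurd h ha⟩
    choose f hf using this
    refine ⟨⋃ a ∈ s, f a, hs.biUnion (fun a ha => (hf a ha).1), ?_, ?_⟩
    · exact Set.iUnion₂_subset (fun a ha => (hf a ha).2.1)
    · intro a ha
      exact Subgroup.closure_mono (Set.subset_biUnion_of_mem (u := f) ha) (hf a ha).2.2
  obtain ⟨C0, hC0, hC0C, hsC⟩ := h2
  have hle : Subgroup.closure C0 ≤ Subgroup.normalClosure {e} := by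
    rw [Subgroup.closure_le]
    exact hC0C.trans Subgroup.conjugatesOfSet_subset_normalClosure
  have hfin : Finite (Subgroup.closure C0) := by
    obtain ⟨m, f, -, hf⟩ := hC0.fin_param
    have hfC : ∀ i, f i ∈ C0 := fun i => by rw [← hf]; exact ⟨i, rfl⟩
    refine finite_invol m (Subgroup.closure C0)
      (fun i => ⟨f i, Subgroup.subset_closure (hfC i)⟩) ?_ ?_ ?_
    · have : Set.range (fun i => (⟨f i, Subgroup.subset_closure (hfC i)⟩ :
          Subgroup.closure C0)) = (Subtype.val) ⁻¹' C0 := by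
        ext z
        constructor
        · rintro ⟨i, rfl⟩; exact hfC i
        · intro hz
          have : (z : G) ∈ Set.range f := by rw [hf]; exact hz
          obtain ⟨i, hi⟩ := this
          exact ⟨i, Subtype.ext hi⟩
      rw [this]
      exact Subgroup.closure_closure_coe_preimage
    · intro i
      obtain ⟨g, hg⟩ := mem_conj (hC0C (hfC i))
      ext
      rw [Subgroup.coe_pow, Subgroup.coe_one]
      show f i ^ 2 = 1
      rw [hg, conj_pow, he2]; simp
    · intro i n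
      obtain ⟨g, hg⟩ := mem_conj (hC0C (hfC i))
      ext
      push_cast
      rw [hg]
      exact hcomm _ (hle n.2) g
  have hle2 : Subgroup.closure s ≤ Subgroup.closure C0 := (Subgroup.closure_le _).2 hsC
  exact Finite.of_injective (Subgroup.inclusion hle2) (Subgroup.inclusion_injective hle2)

/-- `MM G` is locally finite -/
theorem MM_LFs (hO : HO G) {x : G} (hx : x ^ 3 = 1) (hx1 : x ≠ 1) : LFs (MM G) := by
  refine rad_LFs.mono ?_
  set π := QuotientGroup.mk' (rad G) with hπ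
  have hxi : x⁻¹ ^ 3 = 1 := by rw [inv_pow, hx, inv_one]
  have hxi1 : x⁻¹ ≠ 1 := by simpa using hx1
  have key0 : ∀ h ∈ MM G, π h ^ 2 = 1 → π h = 1 := by
    intro h hh hh2
    have hle : Subgroup.normalClosure {π h} ≤ (MM G).map π := by
      have : ((MM G).map π).Normal :=
        Subgroup.Normal.map MM_normal π (QuotientGroup.mk'_surjective _)
      refine Subgroup.normalClosure_le_normal ?_
      rw [Set.singleton_subset_iff]
      exact ⟨h, hh, rfl⟩
    have hLF : LFs (Subgroup.normalClosure {π h}) := by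
      refine LFs_nc hh2 ?_
      intro n hn g
      obtain ⟨n', hn', rfl⟩ := hle hn
      obtain ⟨g', rfl⟩ := QuotientGroup.mk'_surjective (rad G) g
      have hc : g' * h * g'⁻¹ ∈ MM G := MM_normal.conj_mem h hh g'
      have e : π g' * π h * (π g')⁻¹ = π (g' * h * g'⁻¹) := by
        rw [map_mul, map_mul, map_inv]
      have hc2 : π (g' * h * g'⁻¹) ^ 2 = 1 := by rw [← e, conj_pow, hh2]; simp
      show π g' * π h * (π g')⁻¹ * (π n' * (π g' * π h * (π g')⁻¹) * (π n')⁻¹) =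
        π n' * (π g' * π h * (π g')⁻¹) * (π n')⁻¹ * (π g' * π h * (π g')⁻¹)
      rw [e]
      set c := g' * h * g'⁻¹ with hcdef
      have p1 := hn' x hx hx1
      have p2 := hn' x⁻¹ hxi hxi1
      refine comm_core (x := π x) hc2 ?_ ?_ ?_ ?_ ?_ ?_
      · rw [← map_pow, hx, map_one]
      · rw [← map_mul, ← map_pow, (hc x hx hx1).1, map_one]
      · rw [← map_mul, ← map_pow, p1.1, map_one]
      · rw [← map_mul, ← map_mul, ← map_pow, (hc _ p1.1 p1.2).1, map_one]
      · rw [← map_inv, ← map_mul, ← map_pow, p2.1, map_one]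
      · rw [← map_inv, ← map_mul, ← map_mul, ← map_pow, (hc _ p2.1 p2.2).1, map_one]
    have h5 := rad_quot Subgroup.normalClosure_normal hLF
    have h6 : π h ∈ Subgroup.normalClosure {π h} :=
      Subgroup.subset_normalClosure (Set.mem_singleton _)
    rw [h5] at h6
    exact Subgroup.mem_bot.1 h6
  have key1 : ∀ i : ℕ, ∀ h ∈ MM G, π h ^ (2 ^ i) = 1 → π h = 1 := by
    intro i
    induction i with
    | zero => intro h _ hi; simpa using hi
    | succ i ih =>
      intro h hh hi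
      refine key0 h hh ?_
      have := ih (h ^ 2) (pow_mem hh 2) (by
        rw [map_pow, ← pow_mul, mul_comm, ← pow_succ]; exact hi)
      rw [← map_pow]; exact this
  intro g hg
  obtain ⟨i, hi⟩ := MM_two hO hg
  have := key1 i g hg (by rw [← map_pow, hi, map_one])
  exact (QuotientGroup.eq_one_iff g).1 this

/-- no involution `e` with `(e x) ^ 3 = 1` if `MM G` is trivial -/
theorem no_good (hA : HA G) (hO : HO G) (hM : MM G = ⊥) {e x : G} (he : e ^ 2 = 1)
    (he1 : e ≠ 1) (hx : x ^ 3 = 1) (hex : (e * x) ^ 3 = 1) : False := by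
  apply he1
  have : e ∈ MM G := by
    intro w hw hw1
    refine ⟨?_, ?_⟩
    · rcases key hA he he1 hx hex hw with h | h
      · exact h
      · exact absurd h (no6 hO he he1 hw hw1)
    · intro h
      have h1 : w = e := by
        rw [mul_eq_one_iff_inv_eq, sq_inv he] at h; exact h.symm
      rw [h1] at hw
      exact he1 (cube_two hw (i := 1) (by simpa using he))
  rw [hM] at this
  exact Subgroup.mem_bot.1 this

theorem prod_cube (hA : HA G) (hO : HO G) (hM : MM G = ⊥) :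
    ∀ x y : G, x ^ 3 = 1 → y ^ 3 = 1 → (x * y) ^ 3 = 1 := by
  intro x y hx hy
  by_contra hxy
  have h1 : (x⁻¹ * y) ^ 3 = 1 := (hA x y hx hy).resolve_left hxy
  set a := x⁻¹ with ha
  set u := x * y with hu
  have ha3 : a ^ 3 = 1 := by rw [ha, inv_pow, hx, inv_one]
  have hau : a * u = y := by rw [ha, hu, inv_mul_cancel_left]
  have hau2 : a⁻¹ * u = x * x * y := by rw [ha, hu, inv_inv, mul_assoc]
  have hx2 : x * x = x⁻¹ := by
    rw [eq_inv_iff_mul_eq_one]; simpa only [pow_succ, pow_zero, one_mul] using hx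
  have p1 : (a * u) ^ 3 = 1 := by rw [hau]; exact hy
  have p2 : (a⁻¹ * u) ^ 3 = 1 := by rw [hau2, hx2]; exact h1
  have hpow := pow_cube ha3 p1 p2
  obtain ⟨j, hj2, hj1⟩ : ∃ j : ℕ, (u ^ j) ^ 2 = 1 ∧ u ^ j ≠ 1 := by
    classical
    have hex : ∃ i : ℕ, u ^ (2 ^ i) = 1 := (hO u).resolve_left hxy
    have hm := Nat.find_spec hex
    have hmin := fun i => Nat.find_min hex (m := i)
    rcases hn : Nat.find hex with _ | i
    · exfalso
      rw [hn] at hm
      apply hxy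
      rw [show u = 1 by simpa using hm, one_pow]
    · rw [hn] at hm
      refine ⟨2 ^ i, ?_, hmin i (by omega)⟩
      rw [← pow_mul, ← pow_succ]; exact hm
  exact no_good hA hO hM hj2 hj1 ha3 (cube_comm (hpow j))

theorem HO_quot (N : Subgroup G) [N.Normal] (hO : HO G) : HO (G ⧸ N) := by
  intro q
  obtain ⟨g, rfl⟩ := QuotientGroup.mk'_surjective N q
  rcases hO g with h | ⟨i, hi⟩
  · left; rw [← map_pow, h, map_one]
  · right; exact ⟨i, by rw [← map_pow, hi, map_one]⟩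

theorem lift3 (N : Subgroup G) [N.Normal] (hO : HO G) {q : G ⧸ N} (hq : q ^ 3 = 1) :
    ∃ w : G, w ^ 3 = 1 ∧ QuotientGroup.mk' N w = q := by
  obtain ⟨g, rfl⟩ := QuotientGroup.mk'_surjective N q
  rcases hO g with h | ⟨i, hi⟩
  · exact ⟨g, h, rfl⟩
  · refine ⟨1, one_pow _, ?_⟩
    rw [map_one]
    exact (cube_two hq (i := i) (by rw [← map_pow, hi, map_one])).symm

theorem HA_quot (N : Subgroup G) [N.Normal] (hO : HO G) (hA : HA G) : HA (G ⧸ N) := by
  intro p q hp hq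
  obtain ⟨a, ha, rfl⟩ := lift3 N hO hp
  obtain ⟨b, hb, rfl⟩ := lift3 N hO hq
  rcases hA a b ha hb with h | h
  · left; rw [← map_mul, ← map_pow, h, map_one]
  · right; rw [← map_inv, ← map_mul, ← map_pow, h, map_one]

/-- an element whose image has order 3 has order 3 -/
theorem T_of (N : Subgroup G) [N.Normal] (hO : HO G) {g : G}
    (h3 : (QuotientGroup.mk' N g) ^ 3 = 1) (h1 : QuotientGroup.mk' N g ≠ 1) :
    g ^ 3 = 1 ∧ g ≠ 1 := by
  refine ⟨?_, fun h => h1 (by rw [h, map_one])⟩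
  rcases hO g with h | ⟨i, hi⟩
  · exact h
  · exact absurd (cube_two h3 (i := i) (by rw [← map_pow, hi, map_one])) h1

theorem MM_mk {w : G} (hw : w ^ 3 = 1) (hw1 : w ≠ 1) : QuotientGroup.mk' (MM G) w ≠ 1 := by
  intro h
  exact hw1 (MM_cube ((QuotientGroup.eq_one_iff w).1 h) hw)

theorem MM_quot (hO : HO G) : MM (G ⧸ MM G) = ⊥ := by
  rw [eq_bot_iff]
  intro q hq
  obtain ⟨g, rfl⟩ := QuotientGroup.mk'_surjective (MM G) q
  have : g ∈ MM G := by
    intro w hw hw1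
    obtain ⟨h1, h2⟩ := hq (QuotientGroup.mk' (MM G) w) (by rw [← map_pow, hw, map_one])
      (MM_mk hw hw1)
    rw [← map_mul] at h1 h2
    exact T_of (MM G) hO h1 h2
  exact Subgroup.mem_bot.2 ((QuotientGroup.eq_one_iff g).2 this)

theorem invol_pow {g : G} (hg1 : g ≠ 1) {i : ℕ} (hg : g ^ (2 ^ i) = 1) :
    ∃ j : ℕ, (g ^ j) ^ 2 = 1 ∧ g ^ j ≠ 1 := by
  classical
  have hex : ∃ i : ℕ, g ^ (2 ^ i) = 1 := ⟨i, hg⟩
  have hm := Nat.find_spec hex
  have hmin := fun i => Nat.find_min hex (m := i)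
  rcases hn : Nat.find hex with _ | i
  · exfalso
    rw [hn] at hm
    exact hg1 (by simpa using hm)
  · rw [hn] at hm
    refine ⟨2 ^ i, ?_, hmin i (by omega)⟩
    rw [← pow_mul, ← pow_succ]; exact hm

/-- no two independent commuting elements of order 3 modulo `MM G` if `MM G` is not trivial -/
theorem pair_M (hO : HO G) (hM : ∃ m ∈ MM G, m ≠ 1) {x y : G} (hx : x ^ 3 = 1) (hx1 : x ≠ 1)
    (hy : y ^ 3 = 1) (hy1 : y ≠ 1)
    (hc : QuotientGroup.mk' (MM G) x * QuotientGroup.mk' (MM G) y =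
      QuotientGroup.mk' (MM G) y * QuotientGroup.mk' (MM G) x)
    (hne : QuotientGroup.mk' (MM G) y ≠ QuotientGroup.mk' (MM G) x)
    (hne2 : QuotientGroup.mk' (MM G) y ≠ (QuotientGroup.mk' (MM G) x)⁻¹) : False := by
  set π := QuotientGroup.mk' (MM G) with hπ
  have hl : (y * x)⁻¹ * (x * y) ∈ MM G := by
    refine (QuotientGroup.eq_one_iff _).1 ?_
    show π ((y * x)⁻¹ * (x * y)) = 1
    rw [map_mul, map_inv, map_mul, map_mul, hc, inv_mul_cancel]
  obtain ⟨c, hcM, hc2, hc1, hcl⟩ : ∃ c ∈ MM G, c ^ 2 = 1 ∧ c ≠ 1 ∧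
      Commute c ((y * x)⁻¹ * (x * y)) := by
    by_cases hl1 : (y * x)⁻¹ * (x * y) = 1
    · obtain ⟨m, hm, hm1⟩ := hM
      obtain ⟨i, hi⟩ := MM_two hO hm
      obtain ⟨j, hj, hj1⟩ := invol_pow hm1 hi
      refine ⟨m ^ j, pow_mem hm j, hj, hj1, ?_⟩
      rw [hl1]; exact Commute.one_right _
    · obtain ⟨i, hi⟩ := MM_two hO hl
      obtain ⟨j, hj, hj1⟩ := invol_pow hl1 hi
      exact ⟨_, pow_mem hl j, hj, hj1, (Commute.refl _).pow_left j⟩
  have hx3 : π x ^ 3 = 1 := by rw [← map_pow, hx, map_one]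
  have hy3 : π y ^ 3 = 1 := by rw [← map_pow, hy, map_one]
  have hcom : Commute (π x) (π y) := hc
  obtain ⟨hxy3, hxy1⟩ : (x * y) ^ 3 = 1 ∧ x * y ≠ 1 := by
    refine T_of (MM G) hO ?_ ?_
    · rw [map_mul, hcom.mul_pow, hx3, hy3, one_mul]
    · rw [map_mul]
      intro h
      exact hne2 (inv_eq_of_mul_eq_one_right h).symm
  obtain ⟨hyx3, hyx1⟩ : (y⁻¹ * x) ^ 3 = 1 ∧ y⁻¹ * x ≠ 1 := by
    refine T_of (MM G) hO ?_ ?_
    · rw [map_mul, map_inv, hcom.symm.inv_left.mul_pow, hx3, inv_pow, hy3, inv_one, one_mul]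
    · rw [map_mul, map_inv]
      intro h
      exact hne (inv_mul_eq_one.1 h)
  have hc1M : x * c * x⁻¹ ∈ MM G := MM_normal.conj_mem c hcM x
  have q1 := (three_comm hc2 hx (hcM x hx hx1).1).2
  have q2 := (three_comm hc2 hy (hcM y hy hy1).1).2
  have q3 := (three_comm hc2 hxy3 (hcM _ hxy3 hxy1).1).2
  have hc12 : (x * c * x⁻¹) ^ 2 = 1 := by rw [conj_pow, hc2]; simp
  have q4 := (three_comm hc12 hy (hc1M y hy hy1).1).2
  have q5 : y * (x * c * x⁻¹) * y⁻¹ = x * y * c * (x * y)⁻¹ := by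
    have h1 : x * y = (y * x) * ((y * x)⁻¹ * (x * y)) := by rw [mul_inv_cancel_left]
    have h2 : ((y * x)⁻¹ * (x * y)) * c * ((y * x)⁻¹ * (x * y))⁻¹ = c := by
      rw [← hcl.eq, mul_inv_cancel_right]
    calc y * (x * c * x⁻¹) * y⁻¹ = (y * x) * c * (y * x)⁻¹ := by
          rw [mul_inv_rev]; simp only [mul_assoc]
      _ = (y * x) * (((y * x)⁻¹ * (x * y)) * c * ((y * x)⁻¹ * (x * y))⁻¹) * (y * x)⁻¹ := by
          rw [h2]
      _ = ((y * x) * ((y * x)⁻¹ * (x * y))) * c * ((y * x) * ((y * x)⁻¹ * (x * y)))⁻¹ := by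
          simp only [mul_inv_rev, mul_assoc]
      _ = x * y * c * (x * y)⁻¹ := by rw [← h1]
  rw [q5] at q4
  set p := x * y * c * (x * y)⁻¹ with hp
  have q6 : c * p = c * (y * c * y⁻¹) * (x * c * x⁻¹ * p) := by
    calc c * p = (x * y)⁻¹ * c * (x * y) := q3.symm
      _ = y⁻¹ * (x⁻¹ * c * x) * y := by rw [mul_inv_rev]; simp only [mul_assoc]
      _ = y⁻¹ * (c * (x * c * x⁻¹)) * y := by rw [q1]
      _ = (y⁻¹ * c * y) * (y⁻¹ * (x * c * x⁻¹) * y) := by
          simp only [mul_assoc, mul_inv_cancel_left]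
      _ = c * (y * c * y⁻¹) * (x * c * x⁻¹ * p) := by rw [q2, q4]
  have q7 : (y * c * y⁻¹) * (x * c * x⁻¹) = 1 := by
    rw [mul_assoc c, ← mul_assoc (y * c * y⁻¹)] at q6
    have := mul_left_cancel q6
    nth_rewrite 1 [← one_mul p] at this
    exact (mul_right_cancel this).symm
  have q8 : y * c * y⁻¹ = x * c * x⁻¹ := by
    rw [mul_eq_one_iff_eq_inv, sq_inv hc12] at q7
    exact q7
  refine no6 hO hc2 hc1 hyx3 hyx1 ?_
  have q9 : c = y⁻¹ * (x * c * x⁻¹) * y := by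
    rw [← q8]; simp only [mul_assoc, inv_mul_cancel_left, inv_mul_cancel, mul_one]
  calc c * (y⁻¹ * x) = (y⁻¹ * (x * c * x⁻¹) * y) * (y⁻¹ * x) := by rw [← q9]
    _ = y⁻¹ * x * c := by
      simp only [mul_assoc, mul_inv_cancel_left, inv_mul_cancel_left, inv_mul_cancel, mul_one]

/-- a commuting independent pair in a group in which products of elements of order dividing 3
have order dividing 3 -/
theorem comm_pair (hprod : ∀ x y : G, x ^ 3 = 1 → y ^ 3 = 1 → (x * y) ^ 3 = 1) {a b : G}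
    (ha : a ^ 3 = 1) (ha1 : a ≠ 1) (hb : b ^ 3 = 1) (hb1 : b ≠ 1) (hba : b ≠ a)
    (hbai : b ≠ a⁻¹) : ∃ w : G, w ^ 3 = 1 ∧ w ≠ 1 ∧ a * w = w * a ∧ w ≠ a ∧ w ≠ a⁻¹ := by
  by_cases hab : a * b = b * a
  · exact ⟨b, hb, hb1, hab, hba, hbai⟩
  have hai : a⁻¹ ^ 3 = 1 := by rw [inv_pow, ha, inv_one]
  have hbi : b⁻¹ ^ 3 = 1 := by rw [inv_pow, hb, inv_one]
  have hb3 : b * (b * b) = 1 := by
    simpa only [pow_succ, pow_zero, one_mul, mul_assoc] using hb
  have hbb : b * b = b⁻¹ := by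
    rw [eq_inv_iff_mul_eq_one, mul_assoc]; exact hb3
  have haa : a * a = a⁻¹ := by
    rw [eq_inv_iff_mul_eq_one]; simpa only [pow_succ, pow_zero, one_mul] using ha
  have h1 := three_conj hb (hprod a b ha hb)
  have h2 := three_conj hbi (hprod a b⁻¹ ha hbi)
  rw [inv_inv] at h2
  have h3 : (b * a * b⁻¹) * (b⁻¹ * a * b) = (b⁻¹ * a * b) * (b * a * b⁻¹) := by
    rw [mul_assoc, mul_eq_one_iff_inv_eq] at h1 h2
    rw [← h1, ← h2]
  have h4 : a * (b * a * b⁻¹) = (b * a * b⁻¹) * a := by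
    have h5 : b⁻¹ * (b * a * b⁻¹ * (b⁻¹ * a * b)) * b =
        b⁻¹ * (b⁻¹ * a * b * (b * a * b⁻¹)) * b := congrArg (fun t => b⁻¹ * t * b) h3
    have e1 : b⁻¹ * (b * a * b⁻¹ * (b⁻¹ * a * b)) * b = a * (b⁻¹ * b⁻¹ * a * (b * b)) := by
      simp only [mul_assoc, inv_mul_cancel_left]
    have e2 : b⁻¹ * (b⁻¹ * a * b * (b * a * b⁻¹)) * b = (b⁻¹ * b⁻¹ * a * (b * b)) * a := by
      simp only [mul_assoc, inv_mul_cancel, mul_one]
    have e3 : b⁻¹ * b⁻¹ = b := by rw [← mul_inv_rev, hbb, inv_inv]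
    rw [e1, e2, e3, hbb] at h5
    exact h5
  have hane : a⁻¹ * (b * a * b⁻¹) ≠ 1 := by
    intro h
    apply hab
    have : a = b * a * b⁻¹ := inv_mul_eq_one.1 h
    nth_rewrite 1 [this]
    rw [inv_mul_cancel_right]
  refine ⟨a⁻¹ * (b * a * b⁻¹), hprod _ _ hai (conj_cube ha b), hane, ?_, ?_, ?_⟩
  · rw [mul_inv_cancel_left, mul_assoc a⁻¹, ← h4, inv_mul_cancel_left]
  · intro h
    have h5 : b * a * b⁻¹ = a⁻¹ := by rw [← haa, ← inv_mul_eq_iff_eq_mul]; exact h
    have h6 : b * (b * (b * a * b⁻¹) * b⁻¹) * b⁻¹ = a := by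
      calc b * (b * (b * a * b⁻¹) * b⁻¹) * b⁻¹ = (b * (b * b)) * a * (b * (b * b))⁻¹ := by
            simp only [mul_inv_rev, mul_assoc]
        _ = a := by rw [hb3]; simp
    have h7 : ∀ t : G, b * t⁻¹ * b⁻¹ = (b * t * b⁻¹)⁻¹ := by
      intro t; simp only [mul_inv_rev, inv_inv, mul_assoc]
    rw [h5, h7, h5, inv_inv, h5] at h6
    apply ha1
    refine cube_two ha (i := 1) ?_
    rw [pow_one, pow_two]; nth_rewrite 1 [← h6]; exact inv_mul_cancel a
  · intro h
    have h5 : b * a * b⁻¹ = 1 := by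
      rw [inv_mul_eq_iff_eq_mul, mul_inv_cancel] at h; exact h
    exact ha1 (conj_eq_one_iff.1 h5)

/-- the case where at most two elements have order 3 -/
theorem finite_two (hO : HO G) {x : G} (hx : x ^ 3 = 1) (hx1 : x ≠ 1)
    (hall : ∀ q : G, q ^ 3 = 1 → q = 1 ∨ q = x ∨ q = x⁻¹) : Finite G := by
  set S : Set G := {1, x, x⁻¹} with hS
  have hSfin : S.Finite := Set.toFinite _
  have hC : ∀ g : G, Commute g x → g ∈ S := by
    intro g hg
    rcases hO g with h | ⟨i, hi⟩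
    · rcases hall g h with h | h | h
      · left; exact h
      · right; left; exact h
      · right; right; exact h
    · left; exact no6' hO hx hx1 i g hi hg
  have hconj : ∀ g : G, Commute g x ∨ g * x * g⁻¹ = x⁻¹ := by
    intro g
    rcases hall _ (conj_cube hx g) with h | h | h
    · exact absurd (conj_eq_one_iff.1 h) hx1
    · left; exact mul_inv_eq_iff_eq_mul.1 h
    · right; exact h
  have hinv : ∀ g : G, g * x * g⁻¹ = x⁻¹ → g * x⁻¹ = x * g := by
    intro g h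
    have h1 := congrArg (fun t => t⁻¹) h
    simp only [mul_inv_rev, inv_inv] at h1
    rw [← mul_assoc, mul_inv_eq_iff_eq_mul] at h1
    exact h1
  rw [← Set.finite_univ_iff]
  by_cases hcom : ∀ g : G, Commute g x
  · exact hSfin.subset (fun g _ => hC g (hcom g))
  · obtain ⟨t, ht⟩ := not_forall.1 hcom
    have ht' := (hconj t).resolve_left ht
    refine (hSfin.union (hSfin.image (fun s => t * s))).subset ?_
    intro g _
    rcases hconj g with h | h
    · left; exact hC g h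
    · right
      refine ⟨t⁻¹ * g, hC _ ?_, by simp⟩
      show t⁻¹ * g * x = x * (t⁻¹ * g)
      have h1 : g * x = x⁻¹ * g := mul_inv_eq_iff_eq_mul.1 h
      have h2 := hinv t ht'
      have h3 : t⁻¹ * x = x⁻¹ * t⁻¹ := by
        rw [inv_mul_eq_iff_eq_mul, ← mul_assoc, h2, mul_inv_cancel_right]
      have h4 : t⁻¹ * x⁻¹ = x * t⁻¹ := by
        have h5 : t * x = x⁻¹ * t := mul_inv_eq_iff_eq_mul.1 ht'
        rw [inv_mul_eq_iff_eq_mul, ← mul_assoc, h5, mul_inv_cancel_right]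
      rw [mul_assoc, h1, ← mul_assoc, h4, mul_assoc]

/-- `g ∉ K`, `g ^ 2 ∈ K` imply `g ^ 2 = 1` if `K` has exponent 3 -/
theorem sq_of_not_mem (hO : HO G) {K : Subgroup G} (hK3 : ∀ k ∈ K, k ^ 3 = 1)
    (hTK : ∀ g : G, g ^ 3 = 1 → g ∈ K) {g : G} (hg : g ∉ K) (hg2 : g ^ 2 ∈ K) : g ^ 2 = 1 := by
  rcases hO g with h | ⟨i, hi⟩
  · exact absurd (hTK g h) hg
  · refine cube_two (hK3 _ hg2) (i := i) ?_
    rw [← pow_mul, mul_comm, pow_mul, hi, one_pow]

theorem caseA (hO : HO G) (hfg : Group.FG G) {x : G} (hx : x ^ 3 = 1) (hx1 : x ≠ 1)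
    (hprod : ∀ x y : G, x ^ 3 = 1 → y ^ 3 = 1 → (x * y) ^ 3 = 1) : Finite G := by
  have hK3 : ∀ k ∈ KT G, k ^ 3 = 1 := by
    intro k hk
    unfold KT at hk
    induction hk using Subgroup.closure_induction with
    | mem x hx => exact hx
    | one => simp
    | mul x y _ _ hx hy => exact hprod x y hx hy
    | inv x _ hx => rw [inv_pow, hx, inv_one]
  have hTK : ∀ g : G, g ^ 3 = 1 → g ∈ KT G := fun g hg => Subgroup.subset_closure hg
  have hLF : LFs (KT G) := by
    intro s hs hsK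
    refine finite_exp3 ?_ ?_
    · exact (Group.fg_iff_subgroup_fg _).2 ((Subgroup.fg_iff _).2 ⟨s, rfl, hs⟩)
    · intro q
      have h1 : (q : G) ∈ KT G := (Subgroup.closure_le _).2 hsK q.2
      ext
      rw [Subgroup.coe_pow, hK3 _ h1, Subgroup.coe_one]
  refine finite_of_LFs hLF hfg ?_
  have hinvK : ∀ t : G, t ∉ KT G → t ^ 2 = 1 → ∀ k ∈ KT G, t * k * t⁻¹ = k⁻¹ := by
    intro t ht ht2 k hk
    have h1 : t * k ∉ KT G := fun h => ht (by
      have := mul_mem h (inv_mem hk)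
      rwa [mul_inv_cancel_right] at this)
    have h2 : (t * k) ^ 2 ∈ KT G := by
      have e : (t * k) ^ 2 = (t * k * t⁻¹) * k := by
        rw [sq_inv ht2, pow_two]; simp only [mul_assoc]
      rw [e]
      exact mul_mem (KT_normal.conj_mem k hk t) hk
    have h3 := sq_of_not_mem hO hK3 hTK h1 h2
    rw [sq_inv ht2, eq_inv_iff_mul_eq_one]
    rw [pow_two] at h3
    simpa only [mul_assoc] using h3
  refine uniq_finite ?_ ?_ ?_
  · exact Group.fg_of_surjective (f := QuotientGroup.mk' (KT G)) (QuotientGroup.mk'_surjective _)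
  · intro q
    obtain ⟨g, rfl⟩ := QuotientGroup.mk'_surjective (KT G) q
    rcases hO g with h | ⟨i, hi⟩
    · refine ⟨0, ?_⟩
      rw [pow_zero, pow_one]
      exact (QuotientGroup.eq_one_iff g).2 (hTK g h)
    · exact ⟨i, by rw [← map_pow, hi, map_one]⟩
  · intro s t hs hs1 ht ht1
    obtain ⟨s, rfl⟩ := QuotientGroup.mk'_surjective (KT G) s
    obtain ⟨t, rfl⟩ := QuotientGroup.mk'_surjective (KT G) t
    have hsK : s ∉ KT G := fun h => hs1 ((QuotientGroup.eq_one_iff s).2 h)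
    have htK : t ∉ KT G := fun h => ht1 ((QuotientGroup.eq_one_iff t).2 h)
    have hs2 : s ^ 2 = 1 := sq_of_not_mem hO hK3 hTK hsK
      ((QuotientGroup.eq_one_iff _).1 (by rw [← map_pow] at hs; exact hs))
    have ht2 : t ^ 2 = 1 := sq_of_not_mem hO hK3 hTK htK
      ((QuotientGroup.eq_one_iff _).1 (by rw [← map_pow] at ht; exact ht))
    have hsx := hinvK s hsK hs2
    have htx := hinvK t htK ht2
    have hcom : Commute (s⁻¹ * t) x := by
      have h1 : t * x = x⁻¹ * t := mul_inv_eq_iff_eq_mul.1 (htx x (hTK x hx))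
      have h2 : s * x = x⁻¹ * s := mul_inv_eq_iff_eq_mul.1 (hsx x (hTK x hx))
      have h4 : s⁻¹ * x⁻¹ = x * s⁻¹ := by
        rw [inv_mul_eq_iff_eq_mul, ← mul_assoc, h2, mul_inv_cancel_right]
      show s⁻¹ * t * x = x * (s⁻¹ * t)
      rw [mul_assoc, h1, ← mul_assoc, h4, mul_assoc]
    have hst : s⁻¹ * t ∈ KT G := by
      rcases hO (s⁻¹ * t) with h | ⟨i, hi⟩
      · exact hTK _ h
      · rw [no6' hO hx hx1 i _ hi hcom]; exact one_mem _
    have h5 : QuotientGroup.mk' (KT G) (s⁻¹ * t) = 1 := (QuotientGroup.eq_one_iff _).2 hst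
    rw [map_mul, map_inv] at h5
    exact inv_mul_eq_one.1 h5

/-- a finitely generated group whose elements have order 3 or a power of 2, with an element of
order 3 and with the condition on pairs of elements of order 3, is finite -/
theorem no6_main (hA : HA G) (hO : HO G) (hfg : Group.FG G) {x : G} (hx : x ^ 3 = 1)
    (hx1 : x ≠ 1) : Finite G := by
  by_cases hM : MM G = ⊥
  · exact caseA hO hfg hx hx1 (prod_cube hA hO hM)
  have hM' : ∃ m ∈ MM G, m ≠ 1 := by
    by_contra h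
    apply hM
    rw [eq_bot_iff]
    intro m hm
    by_contra h1
    exact h ⟨m, hm, fun h2 => h1 (Subgroup.mem_bot.2 h2)⟩
  refine finite_of_LFs (MM_LFs hO hx hx1) hfg ?_
  have hO' := HO_quot (MM G) hO
  have hx3 : (QuotientGroup.mk' (MM G) x) ^ 3 = 1 := by rw [← map_pow, hx, map_one]
  have hxne := MM_mk hx hx1
  refine finite_two hO' hx3 hxne ?_
  intro q hq
  by_cases hq1 : q = 1
  · left; exact hq1
  by_cases hqx : q = QuotientGroup.mk' (MM G) x
  · right; left; exact hqx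
  by_cases hqxi : q = (QuotientGroup.mk' (MM G) x)⁻¹
  · right; right; exact hqxi
  exfalso
  have hprod := prod_cube (HA_quot (MM G) hO hA) hO' (MM_quot hO)
  obtain ⟨w, hw3, hw1, hwc, hwx, hwxi⟩ := comm_pair hprod hx3 hxne hq hq1 hqx hqxi
  obtain ⟨y, hy3, rfl⟩ := lift3 (MM G) hO hw3
  have hy1 : y ≠ 1 := fun h => hw1 (by rw [h, map_one])
  exact pair_M hO hM' hx hx1 hy3 hy1 hwc hwx hwxi

end

end H555.E12
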