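import Pool.Agent.H555R2.E12.No6
import Pool.Agent.H555R2.E12.CertBd
import Pool.Agent.H555R2.E12.CertBe
import Pool.Agent.H555R2.E12.CertBf

/-!
Groups in which products of elements of order 2 with elements of order 3 have order 2, 3 or 4.
-/

universe u

namespace H555.E12

open H15.TC

section

variable {G : Type u} [Group G]

/-- hypothesis (B) -/
def HB (G : Type u) [Group G] : Prop :=
  ∀ t v : G, t ^ 2 = 1 → v ^ 3 = 1 → (t * v) ^ 3 = 1 ∨ (t * v) ^ 4 = 1

theorem commword {e x w : G} (he : e ^ 2 = 1) (h : Commute e (x * w)) :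
    e * (x * (w * (e * (w⁻¹ * x⁻¹)))) = 1 := by
  have h1 : e * (x * w) * e * (x * w)⁻¹ = 1 := by
    rw [h.eq, mul_assoc (x * w), ← pow_two, he, mul_one, mul_inv_cancel]
  rw [mul_inv_rev] at h1
  simpa only [mul_assoc] using h1

theorem claimBe (hB : HB G) {e x w : G} (he : e ^ 2 = 1) (hx : x ^ 3 = 1) (hw : w ^ 3 = 1)
    (hex : (e * x) ^ 3 = 1) (hew : (e * w) ^ 4 = 1) (hc : Commute e (x * w)) : w = 1 := by
  have hcw := commword he hc
  have hil : ∀ v ∈ ilBe, ev (g3 e x w) v ^ 2 = 1 := by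
    intro v hv
    simp only [ilBe, List.mem_cons, List.not_mem_nil, or_false] at hv
    subst hv
    simp only [ev_cons, ev_nil, mul_one, l0]; exact he
  have htl : ∀ v ∈ tlBe, ev (g3 e x w) v ^ 3 = 1 := by
    intro v hv
    simp only [tlBe, List.mem_cons, List.not_mem_nil, or_false] at hv
    rcases hv with rfl | rfl
    · simp only [ev_cons, ev_nil, mul_one, l2]; exact hx
    · simp only [ev_cons, ev_nil, mul_one, l4]; exact hw
  have hrl : ∀ r ∈ relsBe, ev (g3 e x w) r = 1 := by
    intro r hr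
    simp only [relsBe, List.mem_cons, List.not_mem_nil, or_false] at hr
    simp only [pow_succ, pow_zero, one_mul, mul_assoc] at he hx hw hex hew
    rcases hr with rfl | rfl | rfl | rfl | rfl | rfl
    · simp only [ev_cons, ev_nil, mul_one, l0, l2, l3, l4, l5]; exact he
    · simp only [ev_cons, ev_nil, mul_one, l0, l2, l3, l4, l5]; exact hx
    · simp only [ev_cons, ev_nil, mul_one, l0, l2, l3, l4, l5]; exact hw
    · simp only [ev_cons, ev_nil, mul_one, l0, l2, l3, l4, l5]; exact hex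
    · simp only [ev_cons, ev_nil, mul_one, l0, l2, l3, l4, l5]; exact hew
    · simp only [ev_cons, ev_nil, mul_one, l0, l2, l3, l4, l5]; exact hcw
  obtain ⟨g, hg, h⟩ := okB_sound (gen := g3 e x w) he (g3_cube hx hw) hB okBe hil htl hrl
  simp only [goalsBe, List.mem_cons, List.not_mem_nil, or_false] at hg
  subst hg
  revert h; simp only [ev_cons, ev_nil, mul_one, l0, l2, l3, l4, l5]; exact id

theorem claimBf (hB : HB G) {e x w : G} (he : e ^ 2 = 1) (hx : x ^ 3 = 1) (hw : w ^ 3 = 1)
    (hex : (e * x) ^ 3 = 1) (hew : (e * w) ^ 3 = 1) (hc : Commute e (x * w)) :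
    Commute ((x⁻¹ * w) ^ 3) e := by
  have hcw := commword he hc
  have hee := sq_inv he
  have hil : ∀ v ∈ ilBf, ev (g3 e x w) v ^ 2 = 1 := by
    intro v hv
    simp only [ilBf, List.mem_cons, List.not_mem_nil, or_false] at hv
    subst hv
    simp only [ev_cons, ev_nil, mul_one, l0]; exact he
  have htl : ∀ v ∈ tlBf, ev (g3 e x w) v ^ 3 = 1 := by
    intro v hv
    simp only [tlBf, List.mem_cons, List.not_mem_nil, or_false] at hv
    rcases hv with rfl | rfl
    · simp only [ev_cons, ev_nil, mul_one, l2]; exact hx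
    · simp only [ev_cons, ev_nil, mul_one, l4]; exact hw
  have hrl : ∀ r ∈ relsBf, ev (g3 e x w) r = 1 := by
    intro r hr
    simp only [relsBf, List.mem_cons, List.not_mem_nil, or_false] at hr
    simp only [pow_succ, pow_zero, one_mul, mul_assoc] at he hx hw hex hew
    rcases hr with rfl | rfl | rfl | rfl | rfl | rfl
    · simp only [ev_cons, ev_nil, mul_one, l0, l2, l3, l4, l5]; exact he
    · simp only [ev_cons, ev_nil, mul_one, l0, l2, l3, l4, l5]; exact hx
    · simp only [ev_cons, ev_nil, mul_one, l0, l2, l3, l4, l5]; exact hw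
    · simp only [ev_cons, ev_nil, mul_one, l0, l2, l3, l4, l5]; exact hex
    · simp only [ev_cons, ev_nil, mul_one, l0, l2, l3, l4, l5]; exact hew
    · simp only [ev_cons, ev_nil, mul_one, l0, l2, l3, l4, l5]; exact hcw
  obtain ⟨g, hg, h⟩ := okB_sound (gen := g3 e x w) he (g3_cube hx hw) hB okBf hil htl hrl
  simp only [goalsBf, List.mem_cons, List.not_mem_nil, or_false] at hg
  subst hg
  have h2 : e * (x⁻¹ * w) ^ 3 * e⁻¹ * ((x⁻¹ * w) ^ 3)⁻¹ = 1 := by
    rw [hee]
    revert h
    simp only [ev_cons, ev_nil, mul_one, l0, l2, l3, l4, l5]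
    intro h
    simp only [pow_succ, pow_zero, one_mul, mul_inv_rev, inv_inv, mul_assoc]
    exact h
  rw [mul_inv_eq_one, mul_inv_eq_iff_eq_mul] at h2
  exact h2.symm

theorem claimBd (hB : HB G) {e x w : G} (he : e ^ 2 = 1) (hx : x ^ 3 = 1) (hw : w ^ 3 = 1)
    (hex : (e * x) ^ 4 = 1) (hew : (e * w) ^ 4 = 1) (hc : Commute e (x * w)) :
    x = 1 ∨ w = 1 ∨ e = 1 ∨ (x * w) ^ 3 = 1 ∨ (x⁻¹ * w) ^ 3 = 1 := by
  have hcw := commword he hc
  have hil : ∀ v ∈ ilBd, ev (g3 e x w) v ^ 2 = 1 := by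
    intro v hv
    simp only [ilBd, List.mem_cons, List.not_mem_nil, or_false] at hv
    rcases hv with rfl | rfl | rfl
    · simp only [ev_cons, ev_nil, mul_one, l0]; exact he
    · simp only [ev_cons, ev_nil, mul_one, l0, l4]
      have : e * (w * (e * w)) = (e * w) ^ 2 := by rw [pow_two]; simp only [mul_assoc]
      rw [this, ← pow_mul]; exact hew
    · simp only [ev_cons, ev_nil, mul_one, l0, l2]
      have : e * (x * (e * x)) = (e * x) ^ 2 := by rw [pow_two]; simp only [mul_assoc]
      rw [this, ← pow_mul]; exact hex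
  have htl : ∀ v ∈ tlBd, ev (g3 e x w) v ^ 3 = 1 := by
    intro v hv
    simp only [tlBd, List.mem_cons, List.not_mem_nil, or_false] at hv
    rcases hv with rfl | rfl
    · simp only [ev_cons, ev_nil, mul_one, l2]; exact hx
    · simp only [ev_cons, ev_nil, mul_one, l4]; exact hw
  have hrl : ∀ r ∈ relsBd, ev (g3 e x w) r = 1 := by
    intro r hr
    simp only [relsBd, List.mem_cons, List.not_mem_nil, or_false] at hr
    simp only [pow_succ, pow_zero, one_mul, mul_assoc] at he hx hw hex hew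
    rcases hr with rfl | rfl | rfl | rfl | rfl | rfl
    · simp only [ev_cons, ev_nil, mul_one, l0, l2, l3, l4, l5]; exact he
    · simp only [ev_cons, ev_nil, mul_one, l0, l2, l3, l4, l5]; exact hx
    · simp only [ev_cons, ev_nil, mul_one, l0, l2, l3, l4, l5]; exact hw
    · simp only [ev_cons, ev_nil, mul_one, l0, l2, l3, l4, l5]; exact hex
    · simp only [ev_cons, ev_nil, mul_one, l0, l2, l3, l4, l5]; exact hew
    · simp only [ev_cons, ev_nil, mul_one, l0, l2, l3, l4, l5]; exact hcw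
  obtain ⟨g, hg, h⟩ := okB_sound (gen := g3 e x w) he (g3_cube hx hw) hB okBd hil htl hrl
  simp only [goalsBd, List.mem_cons, List.not_mem_nil, or_false] at hg
  rcases hg with rfl | rfl | rfl | rfl | rfl
  · left; revert h; simp only [ev_cons, ev_nil, mul_one, l0, l2, l3, l4, l5]; exact id
  · right; left; revert h; simp only [ev_cons, ev_nil, mul_one, l0, l2, l3, l4, l5]; exact id
  · right; right; left
    revert h; simp only [ev_cons, ev_nil, mul_one, l0, l2, l3, l4, l5]; exact id
  · right; right; right; left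
    revert h; simp only [ev_cons, ev_nil, mul_one, l0, l2, l3, l4, l5]; intro h
    simp only [pow_succ, pow_zero, one_mul, mul_assoc]; exact h
  · right; right; right; right
    revert h; simp only [ev_cons, ev_nil, mul_one, l0, l2, l3, l4, l5]; intro h
    simp only [pow_succ, pow_zero, one_mul, mul_assoc]; exact h

/-- hypothesis (B) implies hypothesis (A) if all elements have order 3 or a power of 2 -/
theorem HA_of_HB (hO : HO G) (hB : HB G) : HA G := by
  intro a b ha hb
  by_contra hcon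
  rw [not_or] at hcon
  obtain ⟨h1, h2⟩ := hcon
  obtain ⟨i, hi⟩ := (hO (a * b)).resolve_left h1
  obtain ⟨i', hi'⟩ := (hO (a⁻¹ * b)).resolve_left h2
  have ha1 : a ≠ 1 := by
    rintro rfl; exact h1 (by rw [one_mul]; exact hb)
  have hb1 : b ≠ 1 := by
    rintro rfl; exact h1 (by rw [mul_one]; exact ha)
  have hab1 : a * b ≠ 1 := fun h => h1 (by rw [h, one_pow])
  obtain ⟨m, hm, hm1⟩ := invol_pow hab1 hi
  have hc : Commute ((a * b) ^ m) (a * b) := (Commute.refl _).pow_left m
  set j := (a * b) ^ m with hj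
  have hai : a⁻¹ ^ 3 = 1 := by rw [inv_pow, ha, inv_one]
  have hbi : b⁻¹ ^ 3 = 1 := by rw [inv_pow, hb, inv_one]
  have inv_cube : ∀ {t v : G}, t ^ 2 = 1 → (t * v) ^ 3 = 1 → (t * v⁻¹) ^ 3 = 1 := by
    intro t v ht h
    have h3 : (v⁻¹ * t) ^ 3 = 1 := by
      have e : v⁻¹ * t = (t * v)⁻¹ := by rw [mul_inv_rev, sq_inv ht]
      rw [e, inv_pow, h, inv_one]
    exact cube_comm h3
  have inv_four : ∀ {t v : G}, t ^ 2 = 1 → (t * v) ^ 4 = 1 → (t * v⁻¹) ^ 4 = 1 := by
    intro t v ht h
    have e : t * v⁻¹ = v * (t * v)⁻¹ * v⁻¹ := by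
      rw [mul_inv_rev, sq_inv ht, mul_inv_cancel_left]
    rw [e, conj_pow, inv_pow, h]; simp
  rcases hB j a hm ha with p | p <;> rcases hB j b hm hb with q | q
  · have k1 := comm_of_cube hi' (claimBf hB hm ha hb p q hc)
    have k2 : Commute j a := by
      have k3 : Commute j (a * b * (a⁻¹ * b)⁻¹) := hc.mul_right k1.symm.inv_right
      have e : a * b * (a⁻¹ * b)⁻¹ = a * a := by
        rw [mul_inv_rev, inv_inv]; simp only [mul_assoc, mul_inv_cancel_left]
      rw [e] at k3
      have k4 : Commute j (a * a * (a * a)) := k3.mul_right k3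
      have e2 : a * a * (a * a) = a := by
        have : a * a * (a * a) = a ^ 3 * a := by
          simp only [pow_succ, pow_zero, one_mul, mul_assoc]
        rw [this, ha, one_mul]
      rwa [e2] at k4
    exact no6 hO hm hm1 ha ha1 k2.eq
  · exact hb1 (claimBe hB hm ha hb p q hc)
  · have hc' : Commute j (b⁻¹ * a⁻¹) := by
      rw [← mul_inv_rev]; exact hc.inv_right
    have := claimBe hB hm hbi hai (inv_cube hm q) (inv_four hm p) hc'
    exact ha1 (inv_eq_one.1 this)
  · rcases claimBd hB hm ha hb p q hc with h | h | h | h | h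
    · exact ha1 h
    · exact hb1 h
    · exact hm1 h
    · exact h1 h
    · exact h2 h

/-- (B) excludes elements of order 6 -/
theorem HO_of_HB (hP : ∀ g : G, ∃ i : ℕ, g ^ (3 * 2 ^ i) = 1) (hB : HB G) : HO G := by
  intro g
  obtain ⟨i, hi⟩ := hP g
  by_contra hcon
  rw [not_or] at hcon
  obtain ⟨h1, h2⟩ := hcon
  have h3 : g ^ 3 ≠ 1 := h1
  have h4 : g ^ (2 ^ i) ≠ 1 := fun h => h2 ⟨i, h⟩
  have h5 : (g ^ 3) ^ (2 ^ i) = 1 := by rw [← pow_mul]; exact hi
  obtain ⟨m, hm, hm1⟩ := invol_pow h3 h5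
  have h6 : (g ^ (2 ^ i)) ^ 3 = 1 := by rw [← pow_mul, mul_comm]; exact hi
  have hc : Commute ((g ^ 3) ^ m) (g ^ (2 ^ i)) :=
    ((Commute.refl g).pow_left 3).pow_left m |>.pow_right _
  rcases hB _ _ hm h6 with h | h
  · exact cube_comm_invol hm hm1 h6 hc.eq h
  · rw [hc.mul_pow] at h
    have e1 : ((g ^ 3) ^ m) ^ 4 = 1 := by
      rw [show (4 : ℕ) = 2 * 2 by norm_num, pow_mul, hm, one_pow]
    rw [e1, one_mul, pow_succ, h6, one_mul] at h
    exact h4 h

end

end H555.E12
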