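import Pool.Agent.H555R2.E12.PairB
import Pool.Agent.H555R2.E12.CertBg

/-!
Pairs of elements of order 3 with both products of order dividing 4 (they generate a quotient of
the simple group of order 168).
-/

universe u

namespace H555.E12

open H15.TC

variable {G : Type u} [Group G]

theorem claimBg {x w : G} (hx : x ^ 3 = 1) (hw : w ^ 3 = 1)
    (h1 : (x * w) ^ 4 = 1) (h2 : (x⁻¹ * w) ^ 4 = 1) : (x * w * (x⁻¹ * w⁻¹)) ^ 7 = 1 := by
  have hrl : ∀ r ∈ relsBg, ev (g3 1 x w) r = 1 := by
    intro r hr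
    simp only [relsBg, List.mem_cons, List.not_mem_nil, or_false] at hr
    simp only [pow_succ, pow_zero, one_mul, mul_assoc] at hx hw h1 h2
    rcases hr with rfl | rfl | rfl | rfl | rfl
    · simp only [ev_cons, ev_nil, mul_one, l0]
    · simp only [ev_cons, ev_nil, mul_one, l0, l2, l3, l4, l5]; exact hx
    · simp only [ev_cons, ev_nil, mul_one, l0, l2, l3, l4, l5]; exact hw
    · simp only [ev_cons, ev_nil, mul_one, l0, l2, l3, l4, l5]; exact h1
    · simp only [ev_cons, ev_nil, mul_one, l0, l2, l3, l4, l5]; exact h2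
  have h := check_sound chkBg hrl
  revert h
  simp only [ev_cons, ev_nil, mul_one, l0, l2, l3, l4, l5]
  intro h
  simp only [pow_succ, pow_zero, one_mul, mul_assoc]
  exact h

theorem one_of_coprime {g : G} {m n : ℕ} (h : Nat.Coprime m n) (h1 : g ^ m = 1)
    (h2 : g ^ n = 1) : g = 1 := by
  have h3 := Nat.Coprime.eq_one_of_dvd (h.coprime_dvd_left (orderOf_dvd_of_pow_eq_one h1))
    (orderOf_dvd_of_pow_eq_one h2)
  exact orderOf_eq_one_iff.1 h3

theorem pair44 (hO : HO G) {x w : G} (hx : x ^ 3 = 1) (hw : w ^ 3 = 1)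
    (h1 : (x * w) ^ 4 = 1) (h2 : (x⁻¹ * w) ^ 4 = 1) : (x * w) ^ 3 = 1 := by
  have h7 := claimBg hx hw h1 h2
  have hc : x * w * (x⁻¹ * w⁻¹) = 1 := by
    rcases hO (x * w * (x⁻¹ * w⁻¹)) with h | ⟨i, h⟩
    · exact one_of_coprime (by norm_num) h7 h
    · exact one_of_coprime (Nat.Coprime.pow_right i (by norm_num)) h7 h
  have hcomm : Commute x w := by
    rw [← mul_inv_rev, mul_inv_eq_one] at hc
    exact hc
  rw [hcomm.mul_pow, hx, hw, one_mul]

/-- The condition on a pair of elements of order 3. -/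
theorem HA_of_pairs (hO : HO G)
    (h : ∀ a b : G, a ^ 3 = 1 → b ^ 3 = 1 → (a * b) ^ 3 = 1 ∨ (a⁻¹ * b) ^ 3 = 1 ∨
      ((a * b) ^ 4 = 1 ∧ (a⁻¹ * b) ^ 4 = 1) ∨
      ∀ t ∈ Subgroup.closure {a, b}, ∀ v ∈ Subgroup.closure {a, b}, t ^ 2 = 1 → v ^ 3 = 1 →
        (t * v) ^ 3 = 1 ∨ (t * v) ^ 4 = 1) : HA G := by
  intro a b ha hb
  rcases h a b ha hb with h1 | h1 | ⟨h1, h2⟩ | h1
  · exact Or.inl h1
  · exact Or.inr h1
  · exact Or.inl (pair44 hO ha hb h1 h2)
  · have haH : a ∈ Subgroup.closure {a, b} := Subgroup.subset_closure (Or.inl rfl)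
    have hbH : b ∈ Subgroup.closure {a, b} := Subgroup.subset_closure (Or.inr rfl)
    have hOH : HO (Subgroup.closure {a, b}) := by
      intro g
      rcases hO g with h3 | ⟨i, hi⟩
      · left; ext; exact_mod_cast h3
      · right; exact ⟨i, by ext; exact_mod_cast hi⟩
    have hBH : HB (Subgroup.closure {a, b}) := by
      intro t v ht hv
      have ht' : (t : G) ^ 2 = 1 := by exact_mod_cast congrArg Subtype.val ht
      have hv' : (v : G) ^ 3 = 1 := by exact_mod_cast congrArg Subtype.val hv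
      rcases h1 t t.2 v v.2 ht' hv' with h3 | h3
      · left; ext; exact_mod_cast h3
      · right; ext; exact_mod_cast h3
    rcases HA_of_HB hOH hBH ⟨a, haH⟩ ⟨b, hbH⟩
      (Subtype.ext (by rw [Subgroup.coe_pow]; exact ha))
      (Subtype.ext (by rw [Subgroup.coe_pow]; exact hb)) with h3 | h3
    · left
      have h4 := congrArg Subtype.val h3
      rwa [Subgroup.coe_pow, Subgroup.coe_mul] at h4
    · right
      have h4 := congrArg Subtype.val h3
      rwa [Subgroup.coe_pow, Subgroup.coe_mul, Subgroup.coe_inv] at h4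

/-- finitely generated subgroups -/
theorem no6_sub (hO : HO G) (hA : HA G) (hT : ∃ x : G, x ^ 3 = 1 ∧ x ≠ 1) (F : Subgroup G)
    (hF : F.FG) : Finite F := by
  obtain ⟨x, hx, hx1⟩ := hT
  have hz : (Subgroup.zpowers x).FG := by
    rw [Subgroup.zpowers_eq_closure]
    exact ⟨{x}, by simp⟩
  have hF' : (F ⊔ Subgroup.zpowers x).FG := hF.sup hz
  set E := F ⊔ Subgroup.zpowers x with hE
  have hxE : x ∈ E := Subgroup.mem_sup_right (Subgroup.mem_zpowers x)
  have hEfin : Finite E := by
    refine no6_main (G := E) ?_ ?_ ((Group.fg_iff_subgroup_fg E).mpr hF') (x := ⟨x, hxE⟩) ?_ ?_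
    · intro a b ha hb
      have ha' : (a : G) ^ 3 = 1 := by exact_mod_cast congrArg Subtype.val ha
      have hb' : (b : G) ^ 3 = 1 := by exact_mod_cast congrArg Subtype.val hb
      rcases hA a b ha' hb' with h3 | h3
      · left; ext; exact_mod_cast h3
      · right; ext; exact_mod_cast h3
    · intro g
      rcases hO g with h3 | ⟨i, hi⟩
      · left; ext; exact_mod_cast h3
      · right; exact ⟨i, by ext; exact_mod_cast hi⟩
    · exact Subtype.ext (by rw [Subgroup.coe_pow]; exact hx)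
    · intro h1; exact hx1 (congrArg Subtype.val h1)
  exact Finite.of_injective (Subgroup.inclusion (le_sup_left : F ≤ E))
    (Subgroup.inclusion_injective _)

end H555.E12
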