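import Pool.Agent.H15R2.TC3

/-!
Case trees on top of the Todd-Coxeter checker of `Pool.Agent.H15R2.TC3`, for groups in which
for any two elements `a, b` of order dividing 3 one of `ab`, `a⁻¹b` has order dividing 3.
The generator 0 has order dividing 2, the generators 1 and 2 have order dividing 3.
-/

namespace H555.E12

open H15.TC

/-- push a letter -/
noncomputable def pushA (g : ℕ) (l : List ℕ) : List ℕ :=
  match l with
  | [] => [if g < 2 then 0 else g]
  | h :: t =>
    if g < 2 then (if h < 2 then t else 0 :: h :: t)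
    else if h = inv g then t
    else if h = g then inv g :: t
    else g :: h :: t

/-- reduction -/
noncomputable def nrmA (l : List ℕ) : List ℕ := l.foldr pushA []

/-- case trees -/
inductive OKA (goals : List (List ℕ)) : List (List ℕ) → List (List ℕ) → Prop where
  | leaf (tw rels : List (List ℕ)) (d s : List ℕ) (g : ℕ) (gw : List ℕ)
      (hg : goals[g]? = some gw) (h : check rels d s gw = true) : OKA goals tw rels
  | node (tw rels : List (List ℕ)) (u v q c1 c2 w1 w2 : List ℕ)
      (hu : (tw.contains u && tw.contains v) = true)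
      (h1 : nrmA (irev c1 ++ (u ++ (irev q ++ (v ++ (q ++ c1))))) = w1)
      (h2 : nrmA (irev c2 ++ (u ++ (irev q ++ (irev v ++ (q ++ c2))))) = w2)
      (r1 r2 : List (List ℕ))
      (e1 : rels ++ [w1 ++ (w1 ++ w1)] = r1) (e2 : rels ++ [w2 ++ (w2 ++ w2)] = r2)
      (t1 : OKA goals (w1 :: tw) r1) (t2 : OKA goals (w2 :: tw) r2) : OKA goals tw rels

section

variable {G : Type*} [Group G] {gen : ℕ → G}

theorem lv_lt_two (h0 : gen 0 ^ 2 = 1) {g : ℕ} (hg : g < 2) : lv gen g = gen 0 := by
  have : g = 0 ∨ g = 1 := by omega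
  rcases this with rfl | rfl
  · simp [lv]
  · have : (gen 0)⁻¹ = gen 0 := by
      rw [inv_eq_iff_mul_eq_one, ← pow_two]; exact h0
    simp [lv, this]

theorem lv_cubeA (h3 : ∀ i, gen (i + 1) ^ 3 = 1) {g : ℕ} (hg : ¬ g < 2) : lv gen g ^ 3 = 1 := by
  obtain ⟨k, hk⟩ : ∃ k, g / 2 = k + 1 := ⟨g / 2 - 1, by omega⟩
  unfold lv
  rw [hk]
  split
  · exact h3 _
  · rw [inv_pow, h3, inv_one]

theorem ev_pushA (h0 : gen 0 ^ 2 = 1) (h3 : ∀ i, gen (i + 1) ^ 3 = 1) (g : ℕ) (l : List ℕ) :
    ev gen (pushA g l) = lv gen g * ev gen l := by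
  unfold pushA
  cases l with
  | nil =>
    simp only
    by_cases hg : g < 2
    · rw [if_pos hg, ev_cons, lv_lt_two h0 hg, lv_lt_two h0 (by norm_num : 0 < 2)]
    · rw [if_neg hg, ev_cons]
  | cons h t =>
    simp only
    by_cases hg : g < 2
    · rw [if_pos hg]
      by_cases hh : h < 2
      · rw [if_pos hh, ev_cons, lv_lt_two h0 hg, lv_lt_two h0 hh, ← mul_assoc, ← pow_two, h0,
          one_mul]
      · rw [if_neg hh, ev_cons, lv_lt_two h0 hg, lv_lt_two h0 (by norm_num : 0 < 2)]
    · rw [if_neg hg]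
      by_cases h1 : h = inv g
      · rw [if_pos h1, ev_cons, h1, lv_inv, mul_inv_cancel_left]
      · rw [if_neg h1]
        by_cases h2 : h = g
        · rw [if_pos h2, ev_cons, ev_cons, h2, lv_inv]
          have h4 := lv_cubeA (gen := gen) h3 hg
          have h5 : (lv gen g)⁻¹ = lv gen g * lv gen g := by
            rw [inv_eq_iff_mul_eq_one, ← pow_three]; exact h4
          rw [h5, mul_assoc]
        · rw [if_neg h2, ev_cons]

theorem ev_nrmA (h0 : gen 0 ^ 2 = 1) (h3 : ∀ i, gen (i + 1) ^ 3 = 1) (l : List ℕ) :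
    ev gen (nrmA l) = ev gen l := by
  induction l with
  | nil => rfl
  | cons g l ih =>
    show ev gen (pushA g (nrmA l)) = _
    rw [ev_pushA h0 h3, ih, ev_cons]

theorem cube_comm {a b : G} (h : (a * b) ^ 3 = 1) : (b * a) ^ 3 = 1 := by
  have : (b * a) ^ 3 = b * (a * b) ^ 3 * b⁻¹ := by
    simp only [pow_succ, pow_zero, one_mul, mul_assoc, mul_inv_cancel, mul_one]
  rw [this, h]; simp

theorem cube_conj {a : G} (c : G) (h : a ^ 3 = 1) : (c⁻¹ * a * c) ^ 3 = 1 := by
  have : (c⁻¹ * a * c) ^ 3 = c⁻¹ * a ^ 3 * c := by simp [pow_succ, mul_assoc]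
  rw [this, h]; simp

theorem okA_sound {goals : List (List ℕ)} (h0 : gen 0 ^ 2 = 1) (h3 : ∀ i, gen (i + 1) ^ 3 = 1)
    (hA : ∀ a b : G, a ^ 3 = 1 → b ^ 3 = 1 → (a * b) ^ 3 = 1 ∨ (a⁻¹ * b) ^ 3 = 1)
    {tw rels : List (List ℕ)} (t : OKA goals tw rels)
    (htw : ∀ w ∈ tw, ev gen w ^ 3 = 1)
    (hr : ∀ r ∈ rels, ev gen r = 1) : ∃ g ∈ goals, ev gen g = 1 := by
  induction t with
  | leaf tw rels d s g gw hg h => exact ⟨gw, List.mem_of_getElem? hg, check_sound h hr⟩
  | node tw rels u v q c1 c2 w1 w2 hu h1 h2 r1 r2 e1 e2 _ _ ih1 ih2 =>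
    rw [Bool.and_eq_true] at hu
    obtain ⟨hu, hv⟩ := hu
    have ha : ev gen u ^ 3 = 1 := htw u (by simpa using hu)
    have hv' : ev gen v ^ 3 = 1 := htw v (by simpa using hv)
    have hb : ((ev gen q)⁻¹ * ev gen v * ev gen q) ^ 3 = 1 := cube_conj _ hv'
    have k1 : ev gen w1 = (ev gen c1)⁻¹ *
        (ev gen u * ((ev gen q)⁻¹ * ev gen v * ev gen q)) * ev gen c1 := by
      rw [← h1, ev_nrmA h0 h3]
      simp only [ev_append, ev_irev, mul_assoc]
    have k2 : ev gen w2 = (ev gen c2)⁻¹ *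
        (ev gen u * ((ev gen q)⁻¹ * ev gen v * ev gen q)⁻¹) * ev gen c2 := by
      rw [← h2, ev_nrmA h0 h3]
      simp only [ev_append, ev_irev, mul_assoc, mul_inv_rev, inv_inv]
    rcases hA _ _ hb ha with h5 | h5
    · have h6 : ev gen w1 ^ 3 = 1 := by rw [k1]; exact cube_conj _ (cube_comm h5)
      refine ih1 ?_ ?_
      · intro w hw
        rcases List.mem_cons.mp hw with rfl | hw
        · exact h6
        · exact htw w hw
      · rw [← e1]
        intro r hr'
        rcases List.mem_append.mp hr' with h7 | h7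
        · exact hr r h7
        · rw [List.mem_singleton.mp h7, ev_append, ev_append, ← mul_assoc, ← pow_two, ← pow_succ]
          exact h6
    · have h6 : ev gen w2 ^ 3 = 1 := by rw [k2]; exact cube_conj _ (cube_comm h5)
      refine ih2 ?_ ?_
      · intro w hw
        rcases List.mem_cons.mp hw with rfl | hw
        · exact h6
        · exact htw w hw
      · rw [← e2]
        intro r hr'
        rcases List.mem_append.mp hr' with h7 | h7
        · exact hr r h7
        · rw [List.mem_singleton.mp h7, ev_append, ev_append, ← mul_assoc, ← pow_two, ← pow_succ]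
          exact h6

end

end H555.E12
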