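import Pool.Agent.H555R2.E12.TreeA

/-!
Case trees for groups in which the product of an element of order dividing 2 and an element of
order dividing 3 has order dividing 3 or 4.
-/

namespace H555.E12

open H15.TC

/-- case trees; `il`: words with trivial square, `tl`: words with trivial cube -/
inductive OKB (goals : List (List ℕ)) :
    List (List ℕ) → List (List ℕ) → List (List ℕ) → Prop where
  | leaf (il tl rels : List (List ℕ)) (d s : List ℕ) (g : ℕ) (gw : List ℕ)
      (hg : goals[g]? = some gw) (h : check rels d s gw = true) : OKB goals il tl rels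
  | node (il tl rels : List (List ℕ)) (u v q c w1 w2 : List ℕ)
      (hu : (il.contains u && tl.contains v) = true)
      (h1 : nrmA (irev c ++ (u ++ (irev q ++ (v ++ (q ++ c))))) = w1)
      (h2 : nrmA (w1 ++ w1) = w2)
      (r1 r2 : List (List ℕ))
      (e1 : rels ++ [w1 ++ (w1 ++ w1)] = r1) (e2 : rels ++ [w1 ++ (w1 ++ (w1 ++ w1))] = r2)
      (t1 : OKB goals il (w1 :: tl) r1) (t2 : OKB goals (w2 :: il) tl r2) :
      OKB goals il tl rels

section

variable {G : Type*} [Group G] {gen : ℕ → G}

theorem okB_sound {goals : List (List ℕ)} (h0 : gen 0 ^ 2 = 1) (h3 : ∀ i, gen (i + 1) ^ 3 = 1)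
    (hB : ∀ t v : G, t ^ 2 = 1 → v ^ 3 = 1 → (t * v) ^ 3 = 1 ∨ (t * v) ^ 4 = 1)
    {il tl rels : List (List ℕ)} (t : OKB goals il tl rels)
    (hil : ∀ w ∈ il, ev gen w ^ 2 = 1)
    (htl : ∀ w ∈ tl, ev gen w ^ 3 = 1)
    (hr : ∀ r ∈ rels, ev gen r = 1) : ∃ g ∈ goals, ev gen g = 1 := by
  induction t with
  | leaf il tl rels d s g gw hg h => exact ⟨gw, List.mem_of_getElem? hg, check_sound h hr⟩
  | node il tl rels u v q c w1 w2 hu h1 h2 r1 r2 e1 e2 _ _ ih1 ih2 =>
    rw [Bool.and_eq_true] at hu
    obtain ⟨hu, hv⟩ := hu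
    have ha : ev gen u ^ 2 = 1 := hil u (by simpa using hu)
    have hv' : ev gen v ^ 3 = 1 := htl v (by simpa using hv)
    have hb : ((ev gen q)⁻¹ * ev gen v * ev gen q) ^ 3 = 1 := cube_conj _ hv'
    have k1 : ev gen w1 = (ev gen c)⁻¹ *
        (ev gen u * ((ev gen q)⁻¹ * ev gen v * ev gen q)) * ev gen c := by
      rw [← h1, ev_nrmA h0 h3]
      simp only [ev_append, ev_irev, mul_assoc]
    have k2 : ev gen w2 = ev gen w1 * ev gen w1 := by
      rw [← h2, ev_nrmA h0 h3, ev_append]
    have k3 : ∀ n : ℕ, ev gen w1 ^ n = (ev gen c)⁻¹ *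
        (ev gen u * ((ev gen q)⁻¹ * ev gen v * ev gen q)) ^ n * ev gen c := by
      intro n
      rw [k1]
      have := conj_pow (a := (ev gen c)⁻¹)
        (b := ev gen u * ((ev gen q)⁻¹ * ev gen v * ev gen q)) (i := n)
      rw [inv_inv] at this
      exact this
    rcases hB _ _ ha hb with h5 | h5
    · have h6 : ev gen w1 ^ 3 = 1 := by rw [k3, h5]; simp
      refine ih1 hil ?_ ?_
      · intro w hw
        rcases List.mem_cons.mp hw with rfl | hw
        · exact h6
        · exact htl w hw
      · rw [← e1]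
        intro r hr'
        rcases List.mem_append.mp hr' with h7 | h7
        · exact hr r h7
        · rw [List.mem_singleton.mp h7, ev_append, ev_append, ← mul_assoc, ← pow_two, ← pow_succ]
          exact h6
    · have h6 : ev gen w1 ^ 4 = 1 := by rw [k3, h5]; simp
      refine ih2 ?_ htl ?_
      · intro w hw
        rcases List.mem_cons.mp hw with rfl | hw
        · rw [k2, ← pow_two, ← pow_mul]; exact h6
        · exact hil w hw
      · rw [← e2]
        intro r hr'
        rcases List.mem_append.mp hr' with h7 | h7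
        · exact hr r h7
        · rw [List.mem_singleton.mp h7, ev_append, ev_append, ev_append, ← mul_assoc,
            ← mul_assoc, ← pow_two, ← pow_succ, ← pow_succ]
          exact h6

end

end H555.E12
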